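import Mathlib

/-!
# The numbers `Q(y) + ⌊α y⌋` divisible by `d` (helper13)
-/

set_option autoImplicit false

namespace Pool.Agent.P8H13.CL

open Finset

/-- the number of the integers of a closed interval -/
theorem card_Icc_le (A B : ℝ) (hAB : A ≤ B + 1) : ((Icc ⌈A⌉ ⌊B⌋).card : ℝ) ≤ B - A + 1 := by
  rw [Int.card_Icc]
  have h1 : A ≤ ⌈A⌉ := Int.le_ceil A
  have h2 : (⌊B⌋ : ℝ) ≤ B := Int.floor_le B
  rcases le_or_gt 0 (⌊B⌋ + 1 - ⌈A⌉) with h | h
  · have h3 : (((⌊B⌋ + 1 - ⌈A⌉).toNat : ℤ) : ℝ) = ((⌊B⌋ + 1 - ⌈A⌉ : ℤ) : ℝ) := by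
      rw [Int.toNat_of_nonneg h]
    have h4 : ((⌊B⌋ + 1 - ⌈A⌉).toNat : ℝ) = ((⌊B⌋ + 1 - ⌈A⌉ : ℤ) : ℝ) := by exact_mod_cast h3
    rw [h4]
    push_cast
    linarith
  · rw [Int.toNat_of_nonpos h.le]
    simp only [Nat.cast_zero]
    linarith

/-- one block of `q` consecutive integers: upper bound -/
theorem block (α β u v : ℝ) (h : ℤ) (q : ℕ) (hq : 1 ≤ q) (hc : Int.gcd h q = 1)
    (hα : |α - h / q| ≤ 1 / (q : ℝ) ^ 2) (huv : u ≤ v) :
    (((range q).filter (fun t : ℕ => u ≤ Int.fract (α * t + β) ∧ Int.fract (α * t + β) < v)).card : ℝ) ≤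
      q * (v - u) + 3 := by
  classical
  have hq0 : (0 : ℝ) < q := by exact_mod_cast hq
  obtain ⟨A, hA⟩ : ∃ A : ℝ, A = q * u - q * β - 1 := ⟨_, rfl⟩
  obtain ⟨B, hB⟩ : ∃ B : ℝ, B = q * v - q * β + 1 := ⟨_, rfl⟩
  have hAB : A ≤ B + 1 := by
    rw [hA, hB]
    nlinarith
  have key : ((range q).filter (fun t : ℕ => u ≤ Int.fract (α * t + β) ∧ Int.fract (α * t + β) < v)).card ≤
      (Icc ⌈A⌉ ⌊B⌋).card := by
    apply card_le_card_of_injOn (fun t : ℕ => h * t - q * ⌊α * t + β⌋)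
    · intro t ht
      rw [Finset.mem_coe, mem_filter, mem_range] at ht
      obtain ⟨ht1, ht2, ht3⟩ := ht
      rw [Finset.mem_coe, mem_Icc, Int.ceil_le, Int.le_floor]
      have e1 : (((h * t - q * ⌊α * t + β⌋ : ℤ)) : ℝ) =
          q * Int.fract (α * t + β) - q * β - q * t * (α - h / q) := by
        push_cast
        rw [Int.fract]
        field_simp
        ring
      have e2 : |(q : ℝ) * t * (α - h / q)| ≤ 1 := by
        rw [abs_mul, abs_of_nonneg (by positivity)]
        have ht4 : (t : ℝ) ≤ q := by exact_mod_cast ht1.le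
        calc (q : ℝ) * t * |α - h / q| ≤ q * q * (1 / (q : ℝ) ^ 2) := by
              apply mul_le_mul _ hα (abs_nonneg _) (by positivity)
              exact mul_le_mul_of_nonneg_left ht4 hq0.le
          _ = 1 := by field_simp
      obtain ⟨e3, e4⟩ := abs_le.1 e2
      have e5 : q * u ≤ q * Int.fract (α * t + β) := mul_le_mul_of_nonneg_left ht2 hq0.le
      have e6 : q * Int.fract (α * t + β) ≤ q * v := mul_le_mul_of_nonneg_left ht3.le hq0.le
      rw [e1, hA, hB]
      constructor <;> linarith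
    · intro t ht t' ht' htt
      rw [Finset.mem_coe, mem_filter, mem_range] at ht ht'
      simp only at htt
      have h1 : (q : ℤ) ∣ h * ((t : ℤ) - t') := by
        refine ⟨⌊α * t + β⌋ - ⌊α * t' + β⌋, ?_⟩
        linarith
      have h2 : (q : ℤ) ∣ (t : ℤ) - t' := by
        apply Int.dvd_of_dvd_mul_right_of_gcd_one h1
        rw [Int.gcd_comm]
        exact hc
      obtain ⟨k, hk⟩ := h2
      have h3 : (t : ℤ) < q := by exact_mod_cast ht.1
      have h4 : (t' : ℤ) < q := by exact_mod_cast ht'.1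
      have h5 : (0 : ℤ) ≤ t := by positivity
      have h6 : (0 : ℤ) ≤ t' := by positivity
      have h7 : k = 0 := by
        by_contra hne
        rcases lt_or_gt_of_ne hne with h8 | h8
        · have : (q : ℤ) * k ≤ q * (-1) := mul_le_mul_of_nonneg_left (by omega) (by positivity)
          linarith
        · have : (q : ℤ) * 1 ≤ q * k := mul_le_mul_of_nonneg_left (by omega) (by positivity)
          linarith
      rw [h7, mul_zero] at hk
      omega
  have h1 := card_Icc_le A B hAB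
  have h2 : (((range q).filter (fun t : ℕ => u ≤ Int.fract (α * t + β) ∧ Int.fract (α * t + β) < v)).card : ℝ) ≤
      ((Icc ⌈A⌉ ⌊B⌋).card : ℝ) := by exact_mod_cast key
  refine h2.trans (h1.trans (le_of_eq ?_))
  rw [hA, hB]
  ring

/-- the count -/
noncomputable def cnt (α β u v : ℝ) (T : ℕ) : ℕ :=
  ((range T).filter (fun t : ℕ => u ≤ Int.fract (α * t + β) ∧ Int.fract (α * t + β) < v)).card

theorem cnt_add (α β u v : ℝ) (S T : ℕ) : cnt α β u v (S + T) = cnt α β u v S + cnt α (β + α * S) u v T := by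
  unfold cnt
  rw [card_filter, card_filter, card_filter, sum_range_add]
  congr 1
  apply sum_congr rfl
  intro t _
  have e : α * ((S + t : ℕ) : ℝ) + β = α * t + (β + α * S) := by
    push_cast
    ring
  rw [e]

theorem cnt_mono (α β u v : ℝ) {S T : ℕ} (h : S ≤ T) : cnt α β u v S ≤ cnt α β u v T := by
  unfold cnt
  exact card_le_card (filter_subset_filter _ (range_subset_range.2 h))

/-- one block: both bounds -/
theorem block2 (α β u v : ℝ) (h : ℤ) (q : ℕ) (hq : 1 ≤ q) (hc : Int.gcd h q = 1)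
    (hα : |α - h / q| ≤ 1 / (q : ℝ) ^ 2) (hu : 0 ≤ u) (huv : u ≤ v) (hv : v ≤ 1) :
    |(cnt α β u v q : ℝ) - q * (v - u)| ≤ 6 := by
  classical
  have h1 := block α β u v h q hq hc hα huv
  have h2 := block α β 0 u h q hq hc hα hu
  have h3 := block α β v 1 h q hq hc hα hv
  have h4 : (q : ℝ) ≤ (cnt α β 0 u q : ℝ) + cnt α β u v q + cnt α β v 1 q := by
    have h5 : q ≤ cnt α β 0 u q + cnt α β u v q + cnt α β v 1 q := by
      unfold cnt
      have h6 : range q ⊆ ((range q).filter (fun t : ℕ => 0 ≤ Int.fract (α * t + β) ∧ Int.fract (α * t + β) < u)) ∪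
          ((range q).filter (fun t : ℕ => u ≤ Int.fract (α * t + β) ∧ Int.fract (α * t + β) < v)) ∪
          ((range q).filter (fun t : ℕ => v ≤ Int.fract (α * t + β) ∧ Int.fract (α * t + β) < 1)) := by
        intro t ht
        have h7 := Int.fract_nonneg (α * t + β)
        have h8 := Int.fract_lt_one (α * t + β)
        simp only [mem_union, mem_filter]
        rcases lt_or_ge (Int.fract (α * t + β)) u with h9 | h9
        · exact Or.inl (Or.inl ⟨ht, h7, h9⟩)
        · rcases lt_or_ge (Int.fract (α * t + β)) v with h10 | h10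
          · exact Or.inl (Or.inr ⟨ht, h9, h10⟩)
          · exact Or.inr ⟨ht, h10, h8⟩
      have h7 := card_le_card h6
      rw [card_range] at h7
      exact h7.trans ((card_union_le _ _).trans (Nat.add_le_add_right (card_union_le _ _) _))
    exact_mod_cast h5
  have h1' : (cnt α β u v q : ℝ) ≤ q * (v - u) + 3 := h1
  have h2' : (cnt α β 0 u q : ℝ) ≤ q * (u - 0) + 3 := h2
  have h3' : (cnt α β v 1 q : ℝ) ≤ q * (1 - v) + 3 := h3
  rw [abs_le]
  constructor <;> nlinarith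

/-- many blocks -/
theorem blocks (α u v : ℝ) (h : ℤ) (q : ℕ) (hq : 1 ≤ q) (hc : Int.gcd h q = 1)
    (hα : |α - h / q| ≤ 1 / (q : ℝ) ^ 2) (hu : 0 ≤ u) (huv : u ≤ v) (hv : v ≤ 1) (k : ℕ) :
    ∀ β : ℝ, |(cnt α β u v (k * q) : ℝ) - (k * q : ℕ) * (v - u)| ≤ 6 * k := by
  induction k with
  | zero =>
    intro β
    simp [cnt]
  | succ n ih =>
    intro β
    have e : (n + 1) * q = n * q + q := by ring
    rw [e, cnt_add]
    have h1 := ih β
    have h2 := block2 α (β + α * (n * q : ℕ)) u v h q hq hc hα hu huv hv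
    push_cast at h1 h2 ⊢
    have e2 : (cnt α β u v (n * q) : ℝ) + (cnt α (β + α * (n * q)) u v q : ℝ) - (n * q + q) * (v - u) =
        ((cnt α β u v (n * q) : ℝ) - n * q * (v - u)) + ((cnt α (β + α * (n * q)) u v q : ℝ) - q * (v - u)) := by
      ring
    rw [e2]
    refine (abs_add_le _ _).trans ?_
    linarith

/-- intervals of any length -/
theorem long (α β u v : ℝ) (h : ℤ) (q : ℕ) (hq : 1 ≤ q) (hc : Int.gcd h q = 1)
    (hα : |α - h / q| ≤ 1 / (q : ℝ) ^ 2) (hu : 0 ≤ u) (huv : u ≤ v) (hv : v ≤ 1) (T : ℕ) :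
    |(cnt α β u v T : ℝ) - T * (v - u)| ≤ 6 * (T / q) + q * (v - u) + 6 := by
  have hq0 : (0 : ℝ) < q := by exact_mod_cast hq
  obtain ⟨k, hk⟩ : ∃ k : ℕ, k = T / q := ⟨_, rfl⟩
  obtain ⟨r, hr⟩ : ∃ r : ℕ, r = T % q := ⟨_, rfl⟩
  have hT : T = k * q + r := by
    rw [hk, hr, mul_comm]
    exact (Nat.div_add_mod T q).symm
  have hrq : r < q := by
    rw [hr]
    exact Nat.mod_lt _ (by omega)
  have h1 := blocks α u v h q hq hc hα hu huv hv k β
  have h2 := block2 α (β + α * (k * q : ℕ)) u v h q hq hc hα hu huv hv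
  have h3 := cnt_mono α (β + α * (k * q : ℕ)) u v hrq.le
  have h4 : cnt α β u v T = cnt α β u v (k * q) + cnt α (β + α * (k * q : ℕ)) u v r := by
    rw [hT, cnt_add]
  have h5 : (cnt α (β + α * (k * q : ℕ)) u v r : ℝ) ≤ q * (v - u) + 6 := by
    have h6 : (cnt α (β + α * (k * q : ℕ)) u v r : ℝ) ≤ cnt α (β + α * (k * q : ℕ)) u v q := by
      exact_mod_cast h3
    have h7 := (abs_le.1 h2).2
    linarith
  have h6 : (0 : ℝ) ≤ (cnt α (β + α * (k * q : ℕ)) u v r : ℝ) := Nat.cast_nonneg _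
  have h7 : (r : ℝ) * (v - u) ≤ q * (v - u) := by
    apply mul_le_mul_of_nonneg_right _ (by linarith)
    exact_mod_cast hrq.le
  have h8 : (0 : ℝ) ≤ (r : ℝ) * (v - u) := mul_nonneg (Nat.cast_nonneg _) (by linarith)
  have h9 : (k : ℝ) ≤ T / q := by
    rw [hk]
    exact Nat.cast_div_le
  have hTr : (T : ℝ) = (k * q : ℕ) + r := by
    rw [hT]
    push_cast
    ring
  obtain ⟨a1, a2⟩ := abs_le.1 h1
  rw [h4, hTr]
  rw [hTr] at h9
  push_cast at *
  rw [abs_le]
  constructor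
  · nlinarith
  · nlinarith

end Pool.Agent.P8H13.CL
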