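import Mathlib
import Pool.Agent.P8H13.CL.Eq

/-!
# The number of the `y < M` with `d ∣ Q(y) + ⌊α y⌋` (helper13)
-/

set_option autoImplicit false

namespace Pool.Agent.P8H13.CL

open Finset

theorem fr (x : ℝ) (hx : 0 ≤ x) (d : ℕ) (hd : 1 ≤ d) (k : ℕ) :
    ⌊x⌋₊ % d = k ↔ (k : ℝ) / d ≤ Int.fract (x / d) ∧ Int.fract (x / d) < ((k : ℝ) + 1) / d := by
  have hd0 : (0 : ℝ) < d := by exact_mod_cast hd
  obtain ⟨n, hn⟩ : ∃ n : ℕ, n = ⌊x⌋₊ := ⟨_, rfl⟩
  obtain ⟨m, hm⟩ : ∃ m : ℕ, m = n / d := ⟨_, rfl⟩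
  obtain ⟨s, hs⟩ : ∃ s : ℕ, s = n % d := ⟨_, rfl⟩
  have hns : n = d * m + s := by
    rw [hm, hs]
    exact (Nat.div_add_mod n d).symm
  have hsd : s < d := by
    rw [hs]
    exact Nat.mod_lt _ (by omega)
  have h1 : (n : ℝ) ≤ x := by rw [hn]; exact Nat.floor_le hx
  have h2 : x < n + 1 := by rw [hn]; exact Nat.lt_floor_add_one x
  have hnr : (n : ℝ) = d * m + s := by
    rw [hns]
    push_cast
    ring
  have hfl : ⌊x / d⌋ = (m : ℤ) := by
    rw [Int.floor_eq_iff]
    have hs1 : (s : ℝ) + 1 ≤ d := by exact_mod_cast hsd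
    have hs0 : (0 : ℝ) ≤ s := Nat.cast_nonneg s
    constructor
    · rw [le_div_iff₀ hd0]
      push_cast
      nlinarith
    · rw [div_lt_iff₀ hd0]
      push_cast
      nlinarith
  have hfr : Int.fract (x / d) = (x - d * m) / d := by
    rw [Int.fract, hfl]
    push_cast
    field_simp
  rw [← hn, ← hs, hfr, div_le_div_iff_of_pos_right hd0, div_lt_div_iff_of_pos_right hd0]
  constructor
  · intro h
    rw [← h]
    constructor <;> linarith
  · rintro ⟨h3, h4⟩
    have h5 : (k : ℝ) < s + 1 := by linarith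
    have h6 : (s : ℝ) < k + 1 := by linarith
    have h7 : k < s + 1 := by exact_mod_cast h5
    have h8 : s < k + 1 := by exact_mod_cast h6
    omega

/-- the number of the `y < M` in the class of `r` modulo `d` -/
def TT (M d r : ℕ) : ℕ := (M - r + (d - 1)) / d

theorem lt_TT (M d r t : ℕ) (hd : 1 ≤ d) : t < TT M d r ↔ r + d * t < M := by
  unfold TT
  rw [Nat.lt_iff_add_one_le, Nat.le_div_iff_mul_le (by omega)]
  constructor
  · intro h
    have : (t + 1) * d = d * t + d := by ring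
    omega
  · intro h
    have : (t + 1) * d = d * t + d := by ring
    omega

/-- splitting into residue classes -/
theorem split (M d : ℕ) (hd : 1 ≤ d) (P : ℕ → Prop) [DecidablePred P] :
    ((range M).filter P).card = ∑ r ∈ range d, ((range (TT M d r)).filter (fun t => P (r + d * t))).card := by
  classical
  rw [card_eq_sum_card_fiberwise (f := fun y => y % d) (t := range d) (by
    intro y _
    rw [Finset.mem_coe, mem_range]
    exact Nat.mod_lt _ (by omega))]
  apply sum_congr rfl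
  intro r hr
  rw [mem_range] at hr
  symm
  apply card_bij (fun t _ => r + d * t)
  · intro t ht
    rw [mem_filter, mem_range, lt_TT M d r t hd] at ht
    rw [mem_filter, mem_filter, mem_range]
    refine ⟨⟨ht.1, ht.2⟩, ?_⟩
    rw [Nat.add_mul_mod_self_left, Nat.mod_eq_of_lt hr]
  · intro t _ t' _ h
    have h1 : d * t = d * t' := by omega
    exact Nat.eq_of_mul_eq_mul_left (by omega) h1
  · intro y hy
    rw [mem_filter, mem_filter, mem_range] at hy
    obtain ⟨⟨h1, h2⟩, h3⟩ := hy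
    have h4 : y = r + d * (y / d) := by
      have := Nat.div_add_mod y d
      omega
    refine ⟨y / d, ?_, h4.symm⟩
    rw [mem_filter, mem_range, lt_TT M d r _ hd, ← h4]
    exact ⟨h1, h2⟩

/-- **level of distribution** -/
theorem level (Q : ℕ → ℕ) (hQ : ∀ d r t : ℕ, Q (r + d * t) ≡ Q r [MOD d]) (α : ℝ) (hα0 : 0 ≤ α) (h : ℤ) (q : ℕ)
    (hq : 1 ≤ q) (hc : Int.gcd h q = 1) (hα : |α - h / q| ≤ 1 / (q : ℝ) ^ 2) (M d : ℕ) (hd : 1 ≤ d) :
    |(((range M).filter (fun y : ℕ => d ∣ Q y + ⌊α * y⌋₊)).card : ℝ) - M / d| ≤ 6 * (M / q) + q + 6 * d := by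
  classical
  have hd0 : (0 : ℝ) < d := by exact_mod_cast hd
  have hq0 : (0 : ℝ) < q := by exact_mod_cast hq
  obtain ⟨k, hk⟩ : ∃ k : ℕ → ℕ, k = fun r => (d - Q r % d) % d := ⟨_, rfl⟩
  have hkd : ∀ r, k r < d := by
    intro r
    rw [hk]
    exact Nat.mod_lt _ (by omega)
  have hiff : ∀ r t : ℕ, d ∣ Q (r + d * t) + ⌊α * ((r + d * t : ℕ) : ℝ)⌋₊ ↔
      ((k r : ℝ) / d ≤ Int.fract (α * t + α * r / d) ∧ Int.fract (α * t + α * r / d) < ((k r : ℝ) + 1) / d) := by
    intro r t
    have e : α * t + α * r / d = (α * ((r + d * t : ℕ) : ℝ)) / d := by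
      push_cast
      field_simp
      ring
    rw [e, ← fr (α * ((r + d * t : ℕ) : ℝ)) (by positivity) d hd (k r)]
    obtain ⟨F, hF⟩ : ∃ F : ℕ, F = ⌊α * ((r + d * t : ℕ) : ℝ)⌋₊ := ⟨_, rfl⟩
    rw [← hF]
    have h1 : Q (r + d * t) % d = Q r % d := hQ d r t
    have h2 : Q r % d < d := Nat.mod_lt _ (by omega)
    have h3 : F % d < d := Nat.mod_lt _ (by omega)
    rw [Nat.dvd_iff_mod_eq_zero, Nat.add_mod, h1, hk]
    simp only
    obtain ⟨a, ha⟩ : ∃ a : ℕ, a = Q r % d := ⟨_, rfl⟩
    obtain ⟨f, hf⟩ : ∃ f : ℕ, f = F % d := ⟨_, rfl⟩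
    rw [← ha, ← hf]
    rw [← ha] at h2
    rw [← hf] at h3
    rcases Nat.eq_zero_or_pos a with h4 | h4
    · rw [h4, zero_add, Nat.sub_zero, Nat.mod_self, Nat.mod_eq_of_lt h3]
    · rw [Nat.mod_eq_of_lt (by omega : d - a < d)]
      constructor
      · intro h5
        have h6 : d ∣ a + f := Nat.dvd_of_mod_eq_zero h5
        obtain ⟨c, hc⟩ := h6
        have h7 : c = 1 := by
          have h8 : c < 2 := by
            by_contra h9
            have : d * 2 ≤ d * c := Nat.mul_le_mul_left d (by omega)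
            omega
          have h10 : c ≠ 0 := by
            rintro rfl
            omega
          omega
        rw [h7] at hc
        omega
      · intro h5
        have : a + f = d := by omega
        rw [this, Nat.mod_self]
  rw [split M d hd]
  have hcount : ∀ r ∈ range d, ((range (TT M d r)).filter (fun t => d ∣ Q (r + d * t) + ⌊α * ((r + d * t : ℕ) : ℝ)⌋₊)).card =
      cnt α (α * r / d) ((k r : ℝ) / d) (((k r : ℝ) + 1) / d) (TT M d r) := by
    intro r _
    unfold cnt
    congr 1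
    apply filter_congr
    intro t _
    exact hiff r t
  rw [sum_congr rfl hcount]
  have hsumT : ∑ r ∈ range d, TT M d r = M := by
    have h1 := split M d hd (fun _ => True)
    simp only [filter_true, card_range] at h1
    exact h1.symm
  have hsumT' : ∑ r ∈ range d, (TT M d r : ℝ) = M := by exact_mod_cast hsumT
  push_cast
  have e1 : ∑ r ∈ range d, (cnt α (α * r / d) ((k r : ℝ) / d) (((k r : ℝ) + 1) / d) (TT M d r) : ℝ) - M / d =
      ∑ r ∈ range d, ((cnt α (α * r / d) ((k r : ℝ) / d) (((k r : ℝ) + 1) / d) (TT M d r) : ℝ) -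
        TT M d r * (1 / d)) := by
    rw [sum_sub_distrib, ← sum_mul, hsumT']
    ring
  rw [e1]
  refine (abs_sum_le_sum_abs _ _).trans ?_
  calc ∑ r ∈ range d, |(cnt α (α * r / d) ((k r : ℝ) / d) (((k r : ℝ) + 1) / d) (TT M d r) : ℝ) -
        TT M d r * (1 / d)|
      ≤ ∑ r ∈ range d, (6 * ((TT M d r : ℝ) / q) + q * (1 / d) + 6) := by
        apply sum_le_sum
        intro r _
        have h1 := long α (α * r / d) ((k r : ℝ) / d) (((k r : ℝ) + 1) / d) h q hq hc hα (by positivity) (by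
          apply div_le_div_of_nonneg_right _ hd0.le
          linarith) (by
          rw [div_le_one hd0]
          exact_mod_cast hkd r) (TT M d r)
        have e2 : ((k r : ℝ) + 1) / d - (k r : ℝ) / d = 1 / d := by ring
        rw [e2] at h1
        exact h1
    _ = 6 * (M / q) + q + 6 * d := by
        rw [sum_add_distrib, sum_add_distrib, ← mul_sum, ← sum_div, hsumT', sum_const, sum_const,
          card_range, nsmul_eq_mul, nsmul_eq_mul]
        field_simp

end Pool.Agent.P8H13.CL
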