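import Mathlib

/-!
# The `α` with a good rational approximation with a small denominator (helper13)
-/

set_option autoImplicit false

namespace Pool.Agent.P8H13.CL

open Finset MeasureTheory

/-- the bad `α` -/
noncomputable def Bad (N : ℕ) : Set ℝ :=
  ⋃ q ∈ Icc 1 ⌊(N : ℝ) ^ (1 / 4 : ℝ)⌋₊, ⋃ h ∈ range (q + 1),
    Set.Icc ((h : ℝ) / q - 1 / (q * (N : ℝ) ^ (3 / 4 : ℝ))) ((h : ℝ) / q + 1 / (q * (N : ℝ) ^ (3 / 4 : ℝ)))

theorem meas_Bad (N : ℕ) : MeasurableSet (Bad N) :=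
  Finset.measurableSet_biUnion _ fun _ _ => Finset.measurableSet_biUnion _ fun _ _ => measurableSet_Icc

theorem vol_Bad (N : ℕ) (hN : 1 ≤ N) : volume (Bad N) ≤ ENNReal.ofReal (4 * (N : ℝ) ^ (-(1 / 2) : ℝ)) := by
  have hN0 : (0 : ℝ) < N := by exact_mod_cast hN
  obtain ⟨Y, hY⟩ : ∃ Y : ℝ, Y = (N : ℝ) ^ (3 / 4 : ℝ) := ⟨_, rfl⟩
  have hY0 : 0 < Y := by rw [hY]; positivity
  have h1 : ∀ q ∈ Icc 1 ⌊(N : ℝ) ^ (1 / 4 : ℝ)⌋₊, volume (⋃ h ∈ range (q + 1),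
      Set.Icc ((h : ℝ) / q - 1 / (q * (N : ℝ) ^ (3 / 4 : ℝ))) ((h : ℝ) / q + 1 / (q * (N : ℝ) ^ (3 / 4 : ℝ)))) ≤
      ENNReal.ofReal (4 / Y) := by
    intro q hq
    rw [mem_Icc] at hq
    have hq0 : (0 : ℝ) < q := by exact_mod_cast (by omega : 0 < q)
    have hq1 : (1 : ℝ) ≤ q := by exact_mod_cast hq.1
    rw [← hY]
    refine (measure_biUnion_finset_le _ _).trans ?_
    have h2 : ∀ h ∈ range (q + 1), volume (Set.Icc ((h : ℝ) / q - 1 / (q * Y)) ((h : ℝ) / q + 1 / (q * Y))) =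
        ENNReal.ofReal (2 / (q * Y)) := by
      intro h _
      rw [Real.volume_Icc]
      congr 1
      ring
    rw [sum_congr rfl h2, sum_const, card_range, nsmul_eq_mul]
    have h3 : ((q + 1 : ℕ) : ENNReal) = ENNReal.ofReal ((q : ℝ) + 1) := by
      rw [← ENNReal.ofReal_natCast]
      congr 1
      push_cast
      ring
    rw [h3, ← ENNReal.ofReal_mul (by positivity)]
    apply ENNReal.ofReal_le_ofReal
    rw [mul_div_assoc', div_le_div_iff₀ (by positivity) hY0]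
    nlinarith
  unfold Bad
  refine (measure_biUnion_finset_le _ _).trans ((sum_le_sum h1).trans ?_)
  rw [sum_const, Nat.card_Icc, nsmul_eq_mul, Nat.add_sub_cancel]
  rw [← ENNReal.ofReal_natCast, ← ENNReal.ofReal_mul (Nat.cast_nonneg _)]
  apply ENNReal.ofReal_le_ofReal
  have h4 : (⌊(N : ℝ) ^ (1 / 4 : ℝ)⌋₊ : ℝ) ≤ (N : ℝ) ^ (1 / 4 : ℝ) := Nat.floor_le (by positivity)
  have h5 : (N : ℝ) ^ (-(1 / 2) : ℝ) = (N : ℝ) ^ (1 / 4 : ℝ) / Y := by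
    rw [hY, ← Real.rpow_sub hN0]
    norm_num
  rw [h5]
  calc (⌊(N : ℝ) ^ (1 / 4 : ℝ)⌋₊ : ℝ) * (4 / Y) ≤ (N : ℝ) ^ (1 / 4 : ℝ) * (4 / Y) :=
        mul_le_mul_of_nonneg_right h4 (by positivity)
    _ = _ := by ring

/-- the other `α` -/
theorem good (N : ℕ) (hN : 1 ≤ N) (α : ℝ) (hα0 : 0 ≤ α) (hα1 : α ≤ 1) (hB : α ∉ Bad N) :
    ∃ (h : ℤ) (q : ℕ), 1 ≤ q ∧ Int.gcd h q = 1 ∧ |α - h / q| ≤ 1 / (q : ℝ) ^ 2 ∧
      (N : ℝ) ^ (1 / 4 : ℝ) ≤ q ∧ (q : ℝ) ≤ (N : ℝ) ^ (3 / 4 : ℝ) := by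
  have hN0 : (0 : ℝ) < N := by exact_mod_cast hN
  have hN1 : (1 : ℝ) ≤ N := by exact_mod_cast hN
  have hY1 : 1 ≤ (N : ℝ) ^ (3 / 4 : ℝ) := Real.one_le_rpow hN1 (by norm_num)
  obtain ⟨n, hn⟩ : ∃ n : ℕ, n = ⌊(N : ℝ) ^ (3 / 4 : ℝ)⌋₊ := ⟨_, rfl⟩
  have hn0 : 0 < n := by
    rw [hn]
    exact Nat.floor_pos.2 hY1
  have hnY : (n : ℝ) ≤ (N : ℝ) ^ (3 / 4 : ℝ) := by rw [hn]; exact Nat.floor_le (by positivity)
  have hYn : (N : ℝ) ^ (3 / 4 : ℝ) < n + 1 := by rw [hn]; exact Nat.lt_floor_add_one _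
  obtain ⟨r, hr1, hr2⟩ := Real.exists_rat_abs_sub_le_and_den_le α hn0
  have hq1 : 1 ≤ r.den := r.den_pos
  have hq0 : (0 : ℝ) < r.den := by exact_mod_cast hq1
  have hcast : (r : ℝ) = (r.num : ℝ) / (r.den : ℝ) := Rat.cast_def r
  rw [hcast] at hr1
  have hqn : (r.den : ℝ) ≤ n := by exact_mod_cast hr2
  have hn0' : (0 : ℝ) < n := by exact_mod_cast hn0
  refine ⟨r.num, r.den, hq1, ?_, ?_, ?_, hqn.trans hnY⟩
  · exact r.reduced
  · refine hr1.trans ?_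
    apply one_div_le_one_div_of_le (by positivity)
    nlinarith
  · by_contra hlt
    push Not at hlt
    apply hB
    unfold Bad
    simp only [Set.mem_iUnion, exists_prop]
    have h1 : |α - (r.num : ℝ) / r.den| < 1 / r.den := by
      refine lt_of_le_of_lt hr1 ?_
      apply one_div_lt_one_div_of_lt hq0
      nlinarith
    obtain ⟨h2, h3⟩ := abs_lt.1 h1
    have h4 : (-1 : ℝ) < r.num := by
      have h5 : -(1 / (r.den : ℝ)) < (r.num : ℝ) / r.den := by linarith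
      rw [← neg_div, div_lt_div_iff_of_pos_right hq0] at h5
      exact h5
    have h5 : (r.num : ℝ) < r.den + 1 := by
      have h6 : (r.num : ℝ) / r.den < 1 + 1 / r.den := by linarith
      have h7 : 1 + 1 / (r.den : ℝ) = (r.den + 1) / r.den := by field_simp
      rw [h7, div_lt_div_iff_of_pos_right hq0] at h6
      exact h6
    have h6 : (-1 : ℤ) < r.num := by exact_mod_cast h4
    have h7 : r.num < (r.den : ℤ) + 1 := by exact_mod_cast h5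
    refine ⟨r.den, ?_, r.num.toNat, ?_, ?_⟩
    · rw [mem_Icc]
      exact ⟨hq1, Nat.le_floor hlt.le⟩
    · rw [mem_range]
      omega
    · have h8 : ((r.num.toNat : ℕ) : ℝ) = (r.num : ℝ) := by
        have : ((r.num.toNat : ℕ) : ℤ) = r.num := Int.toNat_of_nonneg (by omega)
        exact_mod_cast this
      rw [h8]
      have h9 : |α - (r.num : ℝ) / r.den| ≤ 1 / (r.den * (N : ℝ) ^ (3 / 4 : ℝ)) := by
        refine hr1.trans ?_
        apply one_div_le_one_div_of_le (by positivity)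
        nlinarith
      obtain ⟨h10, h11⟩ := abs_le.1 h9
      exact ⟨by linarith, by linarith⟩

end Pool.Agent.P8H13.CL
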