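import Mathlib
import Pool.Agent.P8H13.OP.Row2

/-!
# The number of the primes in a sector (helper13)
-/

set_option autoImplicit false

namespace Pool.Agent.P8H13.OP

open Finset Filter Topology
open Pool.Agent.N792 (eps gcdProd fv li_asym)
open Pool.Agent.N511.LL.I0aux (gcd_val)

theorem rowsum (b : ℤ) (hb : b = 0 ∨ b = -1) (θ : ℝ) (hθ : 7 / 10 < θ) (hθ1 : θ ≤ 1) :
    ∃ c : ℝ, 0 < c ∧ ∀ β γ : ℝ, 0 ≤ β → β < γ → γ ≤ 1 → ∃ N₀ : ℕ, ∀ N : ℕ, N₀ ≤ N →
      ∃ M : ℕ, N < M ∧ (M : ℝ) ≤ (1 + (γ - β) / 4) * N ∧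
        c * (γ - β) * (((M : ℝ) - N) * ((N : ℝ) ^ θ / Real.log N)) ≤
          ∑ x ∈ Ioc N M, ((Row b θ β γ x).card : ℝ) := by
  classical
  obtain ⟨s, hs, hgood⟩ := good_terms b hb
  refine ⟨s / 160, by positivity, fun β γ hβ hβγ hγ => ?_⟩
  obtain ⟨Δ, hΔ⟩ : ∃ Δ : ℝ, Δ = γ - β := ⟨_, rfl⟩
  have hΔ0 : 0 < Δ := by rw [hΔ]; linarith
  have hΔ1 : Δ ≤ 1 := by rw [hΔ]; linarith
  obtain ⟨ρ, hρ⟩ : ∃ ρ : ℝ, ρ = Δ / 4 := ⟨_, rfl⟩
  have hρ0 : 0 < ρ := by rw [hρ]; positivity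
  have hρ1 : ρ ≤ 1 / 4 := by rw [hρ]; linarith
  obtain ⟨ε, hε⟩ : ∃ ε : ℝ, ε = (θ - 7 / 10) / 2 := ⟨_, rfl⟩
  have hε0 : 0 < ε := by rw [hε]; linarith
  obtain ⟨η, hη⟩ : ∃ η : ℝ, η = ρ / 100 := ⟨_, rfl⟩
  have hη0 : 0 < η := by rw [hη]; positivity
  obtain ⟨M₀, hM₀⟩ := hgood ε η hε0 hη0
  obtain ⟨x3, hx3⟩ := li_asym 1 one_pos b η hη0
  have hpow : Tendsto (fun N : ℕ => (N : ℝ) ^ ε) atTop atTop :=
    (tendsto_rpow_atTop hε0).comp tendsto_natCast_atTop_atTop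
  have hlog : Tendsto (fun N : ℕ => Real.log (N : ℝ)) atTop atTop :=
    Real.tendsto_log_atTop.comp tendsto_natCast_atTop_atTop
  obtain ⟨N₁, hN₁⟩ := eventually_atTop.1 ((hpow.eventually_ge_atTop (100 / Δ)).and
    (hlog.eventually_ge_atTop 1))
  refine ⟨N₁ + M₀ + x3 + 4, fun N hN => ?_⟩
  obtain ⟨c1, c2⟩ := hN₁ N (by omega)
  have hN0 : (0 : ℝ) < N := by exact_mod_cast (by omega : 0 < N)
  have hN1 : (1 : ℝ) ≤ N := by exact_mod_cast (by omega : 1 ≤ N)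
  have hN4 : (4 : ℝ) ≤ N := by exact_mod_cast (by omega : 4 ≤ N)
  obtain ⟨Y, hY⟩ : ∃ Y : ℝ, Y = (N : ℝ) ^ θ := ⟨_, rfl⟩
  have hYN : Y ≤ N := by
    rw [hY]
    calc (N : ℝ) ^ θ ≤ (N : ℝ) ^ (1 : ℝ) := Real.rpow_le_rpow_of_exponent_le hN1 hθ1
      _ = N := Real.rpow_one _
  have hKΔ : 100 / Δ * Δ = 100 := by field_simp
  have hYK : 100 / Δ * (N : ℝ) ^ (7 / 10 + ε) ≤ Y := by
    have e : Y = (N : ℝ) ^ ε * (N : ℝ) ^ (7 / 10 + ε) := by
      rw [hY, ← Real.rpow_add hN0]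
      congr 1
      rw [hε]
      ring
    rw [e]
    exact mul_le_mul_of_nonneg_right c1 (Real.rpow_nonneg hN0.le _)
  have hN7 : 1 ≤ (N : ℝ) ^ (7 / 10 + ε) := Real.one_le_rpow hN1 (by linarith)
  have hΔY : 100 ≤ Δ * Y := by
    have h1 : 100 / Δ * 1 ≤ Y := le_trans (mul_le_mul_of_nonneg_left hN7 (by positivity)) hYK
    calc (100 : ℝ) = Δ * (100 / Δ * 1) := by field_simp
      _ ≤ Δ * Y := mul_le_mul_of_nonneg_left h1 hΔ0.le
  have hY0 : 0 < Y := by nlinarith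
  have hY100 : 100 ≤ Y := by nlinarith
  have h2N : (2 * (N : ℝ)) ^ (7 / 10 + ε) ≤ Δ * Y / 50 := by
    have h1 : (2 * (N : ℝ)) ^ (7 / 10 + ε) ≤ 2 * (N : ℝ) ^ (7 / 10 + ε) := by
      rw [Real.mul_rpow (by norm_num) hN0.le]
      apply mul_le_mul_of_nonneg_right _ (Real.rpow_nonneg hN0.le _)
      calc (2 : ℝ) ^ (7 / 10 + ε) ≤ (2 : ℝ) ^ (1 : ℝ) :=
            Real.rpow_le_rpow_of_exponent_le (by norm_num) (by rw [hε]; linarith)
        _ = 2 := Real.rpow_one _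
    have h2 : 100 * (N : ℝ) ^ (7 / 10 + ε) ≤ Δ * Y := by
      calc 100 * (N : ℝ) ^ (7 / 10 + ε) = Δ * (100 / Δ * (N : ℝ) ^ (7 / 10 + ε)) := by
            field_simp
        _ ≤ Δ * Y := mul_le_mul_of_nonneg_left hYK hΔ0.le
    linarith
  -- the parameter `M`
  obtain ⟨M, hM⟩ : ∃ M : ℕ, M = ⌊(1 + ρ) * (N : ℝ)⌋₊ := ⟨_, rfl⟩
  have hMle : (M : ℝ) ≤ (1 + ρ) * N := by rw [hM]; exact Nat.floor_le (by positivity)
  have hMge : (1 + ρ) * (N : ℝ) - 1 < M := by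
    rw [hM]
    have := Nat.lt_floor_add_one ((1 + ρ) * (N : ℝ))
    linarith
  have hρN : 25 ≤ ρ * N := by
    rw [hρ]
    nlinarith
  have hM2 : (M : ℝ) ≤ 2 * N := by nlinarith
  have hMN : (N : ℝ) + 24 / 25 * (ρ * N) ≤ M := by nlinarith
  have hNM : N ≤ M := by
    have : (N : ℝ) ≤ M := by nlinarith
    exact_mod_cast this
  have hM2' : M ≤ 2 * N := by exact_mod_cast hM2
  have hM0 : (0 : ℝ) < M := by linarith
  -- the parameter `C`
  obtain ⟨C, hC⟩ : ∃ C : ℕ, C = ⌊Y⌋₊ := ⟨_, rfl⟩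
  have hCle : (C : ℝ) ≤ Y := by rw [hC]; exact Nat.floor_le hY0.le
  have hCge : Y - 1 < C := by
    rw [hC]
    have := Nat.lt_floor_add_one Y
    linarith
  have hCN : C ≤ N := by
    have : (C : ℝ) ≤ N := hCle.trans hYN
    exact_mod_cast this
  have hMC : (M : ℝ) ^ (7 / 10 + ε) ≤ C := by
    have h1 : (M : ℝ) ^ (7 / 10 + ε) ≤ (2 * (N : ℝ)) ^ (7 / 10 + ε) :=
      Real.rpow_le_rpow hM0.le hM2 (by linarith)
    nlinarith
  -- the parameter `H`
  obtain ⟨H, hH⟩ : ∃ H : ℕ, H = ⌊Δ / 4 * Y⌋₊ := ⟨_, rfl⟩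
  have hHle : (H : ℝ) ≤ Δ / 4 * Y := by rw [hH]; exact Nat.floor_le (by positivity)
  have hHge : Δ / 5 * Y ≤ H := by
    have h1 : Δ / 4 * Y - 1 < H := by
      rw [hH]
      have := Nat.lt_floor_add_one (Δ / 4 * Y)
      linarith
    linarith
  have hMH : (M : ℝ) ^ (7 / 10 : ℝ) ≤ H := by
    have h1 : (M : ℝ) ^ (7 / 10 : ℝ) ≤ (M : ℝ) ^ (7 / 10 + ε) :=
      Real.rpow_le_rpow_of_exponent_le (by linarith) (by linarith)
    have h2 : (M : ℝ) ^ (7 / 10 + ε) ≤ (2 * (N : ℝ)) ^ (7 / 10 + ε) :=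
      Real.rpow_le_rpow hM0.le hM2 (by linarith)
    linarith
  -- the parameter `A`
  obtain ⟨A, hA⟩ : ∃ A : ℕ, A = 2 * ⌈β * (1 + ρ) * Y / 2⌉₊ + 1 := ⟨_, rfl⟩
  have hβY : 0 ≤ β * (1 + ρ) * Y / 2 := by positivity
  have hAle : (A : ℝ) ≤ β * (1 + ρ) * Y + 3 := by
    have h1 := Nat.ceil_lt_add_one hβY
    rw [hA]
    push_cast
    linarith
  have hAge : β * (1 + ρ) * Y ≤ A := by
    have h1 := Nat.le_ceil (β * (1 + ρ) * Y / 2)
    rw [hA]
    push_cast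
    linarith
  have hA2H : (A : ℝ) + 2 * H ≤ γ * Y - 22 := by
    have h1 : β * (1 + ρ) * Y ≤ (β + ρ) * Y := by
      apply mul_le_mul_of_nonneg_right _ hY0.le
      have h2 : β ≤ 1 := by linarith
      nlinarith
    have h2 : γ = β + Δ := by rw [hΔ]; ring
    rw [h2, hρ] at *
    nlinarith
  have hA2C : A + 2 * H ≤ C := by
    have h1 : (A : ℝ) + 2 * H ≤ C := by
      have h2 : γ * Y ≤ 1 * Y := mul_le_mul_of_nonneg_right hγ hY0.le
      linarith
    exact_mod_cast h1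
  obtain ⟨Bad, hBad, hG⟩ := hM₀ M (by omega) C hMC (by omega) N A H hNM (by rw [hA]; omega) hA2C hMH
  -- the good constant terms
  obtain ⟨G, hGd⟩ : ∃ G : Finset ℕ, G = ((range H).image (fun i => A + 2 * i)) \ Bad := ⟨_, rfl⟩
  have hGcard : (H : ℝ) / 2 ≤ G.card := by
    have h1 : ((range H).image (fun i => A + 2 * i)).card = H := by
      rw [card_image_of_injective _ (fun i j h => by simpa using h), card_range]
    have h2 := le_card_sdiff Bad ((range H).image (fun i => A + 2 * i))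
    rw [h1, ← hGd] at h2
    have h3 : (H : ℝ) ≤ G.card + Bad.card := by
      have : H ≤ G.card + Bad.card := by omega
      exact_mod_cast this
    have h4 : η * C ≤ H / 80 := by
      rw [hη, hρ]
      have h5 : Δ / 4 / 100 * C ≤ Δ / 4 / 100 * Y := mul_le_mul_of_nonneg_left hCle (by positivity)
      linarith
    have hH0 : (0 : ℝ) ≤ H := Nat.cast_nonneg H
    linarith
  have hGmem : ∀ a ∈ G, A ≤ a ∧ a < A + 2 * H ∧ GoodC b s η N M a := by
    intro a ha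
    rw [hGd, Finset.mem_sdiff, mem_image] at ha
    obtain ⟨⟨i, hi, rfl⟩, h2⟩ := ha
    rw [mem_range] at hi
    refine ⟨by omega, by omega, hG _ (by omega) (by omega) ?_ h2⟩
    rw [hA]
    refine ⟨⌈β * (1 + ρ) * Y / 2⌉₊ + i, by omega⟩
  -- the number of primes for one constant term
  obtain ⟨X, hX⟩ : ∃ X : ℝ, X = M / Real.log M := ⟨_, rfl⟩
  have hlogM : Real.log M ≤ 2 * Real.log N := by
    have h1 : (M : ℝ) ≤ (N : ℝ) ^ 2 := by nlinarith
    have h2 := Real.log_le_log hM0 h1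
    rw [Real.log_pow] at h2
    exact_mod_cast h2
  have hlogM0 : 0 < Real.log M := by
    apply Real.log_pos
    nlinarith
  have hX0 : 0 < X := by rw [hX]; positivity
  have hone : ∀ a ∈ G, s * (X * ρ / 8) ≤
      (((Ioc N M).filter (fun m : ℕ => (q b m + a).Prime)).card : ℝ) := by
    intro a ha
    obtain ⟨ha1, ha2, S, hS, hc⟩ := hGmem a ha
    have haM : a ∈ Icc 1 M := by
      rw [mem_Icc]
      constructor
      · rw [hA] at ha1
        omega
      · omega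
    have h3 := hx3 M (by omega) a haM N M hNM le_rfl
    have hfe : (Ioc N M).filter (fun m : ℕ => (fv 1 b (a : ℤ) m).toNat.Prime) =
        (Ioc N M).filter (fun m : ℕ => (q b m + a).Prime) := by
      apply filter_congr
      intro m _
      rw [fv_nat b hb]
    rw [hfe, gcd_val] at hc
    have e3 : eps 1 b * S * 1 * (M : ℝ) / Real.log M = eps 1 b * S * 1 * X := by
      rw [hX]
      ring
    rw [e3] at hc
    rw [← hX] at h3
    refine real1 (eps_ge b) hs hS hX0 hρ0 hη ?_ h3 hc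
    rw [hX]
    rw [le_div_iff₀ (by positivity)]
    have e4 : 24 / 100 * ρ * ((M : ℝ) / Real.log M) * (2 * Real.log M) = 48 / 100 * ρ * M := by
      field_simp
      ring
    rw [e4]
    have h5 : ρ * (M : ℝ) ≤ ρ * (2 * N) := mul_le_mul_of_nonneg_left hM2 hρ0.le
    linarith
  -- double counting
  have hsub : ∀ x ∈ Ioc N M, G.filter (fun a => (q b x + a).Prime) ⊆ Row b θ β γ x := by
    intro x hx a ha
    rw [mem_Ioc] at hx
    rw [mem_filter] at ha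
    obtain ⟨ha1, ha2, -⟩ := hGmem a ha.1
    unfold Row
    rw [mem_filter, mem_range]
    have hx0 : (0 : ℝ) ≤ x := Nat.cast_nonneg x
    have hxN : (N : ℝ) ≤ x := by exact_mod_cast hx.1.le
    have hxM : (x : ℝ) ≤ (1 + ρ) * N := le_trans (by exact_mod_cast hx.2) hMle
    have hxθ1 : Y ≤ (x : ℝ) ^ θ := by
      rw [hY]
      exact Real.rpow_le_rpow hN0.le hxN (by linarith)
    have hxθ2 : (x : ℝ) ^ θ ≤ (1 + ρ) * Y := by
      calc (x : ℝ) ^ θ ≤ ((1 + ρ) * N) ^ θ := Real.rpow_le_rpow hx0 hxM (by linarith)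
        _ = (1 + ρ) ^ θ * Y := by rw [Real.mul_rpow (by linarith) hN0.le, hY]
        _ ≤ (1 + ρ) ^ (1 : ℝ) * Y := by
            apply mul_le_mul_of_nonneg_right _ hY0.le
            exact Real.rpow_le_rpow_of_exponent_le (by linarith) hθ1
        _ = (1 + ρ) * Y := by rw [Real.rpow_one]
    refine ⟨by omega, ?_, ?_, ha.2⟩
    · have h1 : β * (x : ℝ) ^ θ ≤ β * ((1 + ρ) * Y) := mul_le_mul_of_nonneg_left hxθ2 hβ
      have h2 : (A : ℝ) ≤ a := by exact_mod_cast ha1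
      have h3 : β * ((1 + ρ) * Y) = β * (1 + ρ) * Y := by ring
      linarith
    · have h1 : (a : ℝ) + 1 ≤ A + 2 * H := by exact_mod_cast (by omega : a + 1 ≤ A + 2 * H)
      have h2 : γ * Y ≤ γ * (x : ℝ) ^ θ := mul_le_mul_of_nonneg_left hxθ1 (by linarith)
      linarith
  have hdc : ∑ a ∈ G, ((Ioc N M).filter (fun m : ℕ => (q b m + a).Prime)).card ≤
      ∑ x ∈ Ioc N M, (Row b θ β γ x).card := by
    calc ∑ a ∈ G, ((Ioc N M).filter (fun m : ℕ => (q b m + a).Prime)).card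
        = ∑ x ∈ Ioc N M, (G.filter (fun a => (q b x + a).Prime)).card := by
          simp only [card_filter]
          exact sum_comm
      _ ≤ _ := sum_le_sum fun x hx => card_le_card (hsub x hx)
  have hlow : (H : ℝ) / 2 * (s * (X * ρ / 8)) ≤ ∑ x ∈ Ioc N M, ((Row b θ β γ x).card : ℝ) := by
    calc (H : ℝ) / 2 * (s * (X * ρ / 8)) ≤ G.card * (s * (X * ρ / 8)) :=
          mul_le_mul_of_nonneg_right hGcard (by positivity)
      _ = ∑ a ∈ G, s * (X * ρ / 8) := by rw [sum_const, nsmul_eq_mul]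
      _ ≤ ∑ a ∈ G, (((Ioc N M).filter (fun m : ℕ => (q b m + a).Prime)).card : ℝ) := sum_le_sum hone
      _ ≤ _ := by exact_mod_cast hdc
  have hlogN0 : 0 < Real.log N := by linarith
  have hXN : N / (2 * Real.log N) ≤ X := by
    rw [hX]
    have hNMr : (N : ℝ) ≤ M := by exact_mod_cast hNM
    exact div_le_div₀ hM0.le hNMr hlogM0 hlogM
  refine ⟨M, ?_, ?_, ?_⟩
  · have : (N : ℝ) < M := by
      have h1 : 0 < ρ * N := by positivity
      linarith
    exact_mod_cast this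
  · rw [← hΔ, ← hρ]
    exact hMle
  · refine le_trans ?_ hlow
    rw [← hΔ, ← hY]
    have h2 : (Δ / 5 * Y) / 2 * (s * (N / (2 * Real.log N) * ρ / 8)) ≤ (H : ℝ) / 2 * (s * (X * ρ / 8)) := by
      gcongr
    refine le_trans ?_ h2
    have h3 : (Δ / 5 * Y) / 2 * (s * (N / (2 * Real.log N) * ρ / 8)) =
        s / 160 * Δ * (ρ * N * (Y / Real.log N)) := by
      field_simp
      ring
    rw [h3]
    apply mul_le_mul_of_nonneg_left _ (by positivity)
    apply mul_le_mul_of_nonneg_right _ (by positivity)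
    linarith

/-- the sum over all rows -/
theorem rowsum2 (b : ℤ) (hb : b = 0 ∨ b = -1) :
    ∃ c : ℝ, 0 < c ∧ ∀ β γ : ℝ, 0 ≤ β → β < γ → γ ≤ 1 → ∃ N₀ : ℕ, ∀ N : ℕ, N₀ ≤ N →
      c * (γ - β) * ((N : ℝ) * (N / Real.log N)) ≤ ∑ x ∈ Ioc N (2 * N), ((Row b 1 β γ x).card : ℝ) := by
  classical
  obtain ⟨c, hc, h⟩ := rowsum b hb 1 (by norm_num) le_rfl
  refine ⟨c / 4, by positivity, fun β γ hβ hβγ hγ => ?_⟩
  obtain ⟨N₀, hN₀⟩ := h β γ hβ hβγ hγ
  refine ⟨N₀ + 3, fun N hN => ?_⟩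
  have hΔ0 : 0 < γ - β := by linarith
  have hΔ1 : γ - β ≤ 1 := by linarith
  have hNr3 : (3 : ℝ) ≤ N := by exact_mod_cast (by omega : 3 ≤ N)
  have hNr0 : (0 : ℝ) < N := by linarith
  have hlN : 0 < Real.log N := Real.log_pos (by linarith)
  obtain ⟨Λ, hΛ⟩ : ∃ Λ : ℝ, Λ = Real.log (2 * N) := ⟨_, rfl⟩
  have hΛ0 : 0 < Λ := by
    rw [hΛ]
    exact Real.log_pos (by linarith)
  have hΛ2 : Λ ≤ 2 * Real.log N := by
    have h1 : 2 * (N : ℝ) ≤ (N : ℝ) ^ 2 := by nlinarith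
    have h2 := Real.log_le_log (by linarith) h1
    rw [Real.log_pow, ← hΛ] at h2
    exact_mod_cast h2
  have key : ∀ n u : ℕ, N ≤ u → u ≤ 2 * N → 2 * N - u = n →
      c * (γ - β) * ((2 * N - u - 2 * ((γ - β) / 4) * N) * (N / Λ)) ≤
        ∑ x ∈ Ioc u (2 * N), ((Row b 1 β γ x).card : ℝ) := by
    intro n
    induction n using Nat.strong_induction_on with
    | _ n ih =>
      intro u hu1 hu2 hn
      have hur : (N : ℝ) ≤ u := by exact_mod_cast hu1
      have hu2r : (u : ℝ) ≤ 2 * N := by exact_mod_cast hu2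
      obtain ⟨M, hM1, hM2, hM3⟩ := hN₀ u (by omega)
      have hM1r : (u : ℝ) < M := by exact_mod_cast hM1
      rw [Real.rpow_one] at hM3
      by_cases hM : M ≤ 2 * N
      · have h1 := ih (2 * N - M) (by omega) M (by omega) hM rfl
        have h2 : ∑ x ∈ Ioc u (2 * N), ((Row b 1 β γ x).card : ℝ) =
            ∑ x ∈ Ioc u M, ((Row b 1 β γ x).card : ℝ) + ∑ x ∈ Ioc M (2 * N), ((Row b 1 β γ x).card : ℝ) :=
          (Finset.sum_Ioc_consecutive _ hM1.le hM).symm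
        rw [h2]
        have h3 : (N : ℝ) / Λ ≤ u / Real.log u := by
          apply div_le_div₀ (by linarith) hur (Real.log_pos (by linarith))
          rw [hΛ]
          exact Real.log_le_log (by linarith) hu2r
        have h4 : c * (γ - β) * (((M : ℝ) - u) * (N / Λ)) ≤
            c * (γ - β) * (((M : ℝ) - u) * (u / Real.log u)) := by
          apply mul_le_mul_of_nonneg_left _ (by positivity)
          exact mul_le_mul_of_nonneg_left h3 (by linarith)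
        calc c * (γ - β) * ((2 * N - u - 2 * ((γ - β) / 4) * N) * (N / Λ)) =
              c * (γ - β) * (((M : ℝ) - u) * (N / Λ)) +
              c * (γ - β) * ((2 * N - M - 2 * ((γ - β) / 4) * N) * (N / Λ)) := by ring
          _ ≤ _ := add_le_add (h4.trans hM3) h1
      · have hMr : (2 * N : ℝ) ≤ M := by
          have : 2 * N ≤ M := by omega
          exact_mod_cast this
        have h5 : (2 * N - u - 2 * ((γ - β) / 4) * N : ℝ) ≤ 0 := by nlinarith
        have h6 : c * (γ - β) * ((2 * N - u - 2 * ((γ - β) / 4) * N) * (N / Λ)) ≤ 0 := by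
          apply mul_nonpos_of_nonneg_of_nonpos (by positivity)
          exact mul_nonpos_of_nonpos_of_nonneg h5 (by positivity)
        refine h6.trans (sum_nonneg fun x _ => Nat.cast_nonneg _)
  have h1 := key (2 * N - N) N le_rfl (by omega) rfl
  refine le_trans ?_ h1
  have h2 : (N : ℝ) / 2 ≤ 2 * N - N - 2 * ((γ - β) / 4) * N := by nlinarith
  have h3 : (N : ℝ) / (2 * Real.log N) ≤ N / Λ := div_le_div_of_nonneg_left hNr0.le hΛ0 hΛ2
  calc c / 4 * (γ - β) * ((N : ℝ) * (N / Real.log N)) =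
        c * (γ - β) * ((N / 2) * (N / (2 * Real.log N))) := by
        field_simp
        ring
    _ ≤ _ := by
        apply mul_le_mul_of_nonneg_left _ (by positivity)
        exact mul_le_mul h2 h3 (by positivity) (by linarith)

end Pool.Agent.P8H13.OP
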