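import Mathlib
import Pool.Agent.P8H13.CL.Ad
import Pool.Agent.Y257.HS.TH
import Pool.Agent.Y840.PT.Loc

/-!
# Upper bound for the number of the primes `Q(y) + ⌊α y⌋` (helper13)
-/

set_option autoImplicit false

namespace Pool.Agent.P8H13.CL

open Finset Filter Topology
open Pool.Agent.Y843.HS (Th qq VV Wt Sv Pr)

/-- the classes -/
def Z0 : ℕ → Finset ℕ := fun _ => {0}

theorem dvd_iff (U : Finset ℕ) (hU : ∀ p ∈ U, p.Prime) (n : ℕ) :
    (∀ p ∈ U, n % p ∈ Z0 p) ↔ (∏ p ∈ U, p) ∣ n := by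
  unfold Z0
  simp only [Finset.mem_singleton]
  constructor
  · intro h
    apply Finset.prod_primes_dvd n (fun p hp => (hU p hp).prime)
    intro p hp
    exact Nat.dvd_of_mod_eq_zero (h p hp)
  · intro h p hp
    exact Nat.mod_eq_zero_of_dvd ((Finset.dvd_prod_of_mem _ hp).trans h)

/-- the number of sets of primes with a small product -/
theorem card_sets (z R B : ℕ) : (((Pr z R).powerset).filter (fun U => ∏ p ∈ U, p ≤ B)).card ≤ B := by
  classical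
  have h1 : (((Pr z R).powerset).filter (fun U => ∏ p ∈ U, p ≤ B)).card ≤ (Icc 1 B).card := by
    apply card_le_card_of_injOn (fun U => ∏ p ∈ U, p)
    · intro U hU
      rw [Finset.mem_coe, mem_filter, mem_powerset] at hU
      rw [Finset.mem_coe, mem_Icc]
      refine ⟨Nat.one_le_iff_ne_zero.2 (Finset.prod_ne_zero_iff.2 fun p hp => ?_), hU.2⟩
      have h2 := hU.1 hp
      unfold Pr at h2
      exact (mem_filter.1 h2).2.ne_zero
    · intro U hU V hV hUV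
      rw [Finset.mem_coe, mem_filter, mem_powerset] at hU hV
      have h3 : ∀ W : Finset ℕ, W ⊆ Pr z R → (∏ p ∈ W, p).primeFactors = W := by
        intro W hW
        apply Nat.primeFactors_prod
        intro p hp
        have h2 := hW hp
        unfold Pr at h2
        exact (mem_filter.1 h2).2
      simp only at hUV
      rw [← h3 U hU.1, ← h3 V hV.1, hUV]
  rw [Nat.card_Icc] at h1
  omega

/-- **pointwise upper bound** -/
theorem point : ∃ C : ℝ, 0 < C ∧ ∃ N₀ : ℕ, ∀ N : ℕ, N₀ ≤ N → ∀ Q : ℕ → ℕ,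
    (∀ d r t : ℕ, Q (r + d * t) ≡ Q r [MOD d]) → (∀ y : ℕ, N < y → N ≤ Q y) →
    ∀ (α : ℝ) (h : ℤ) (q : ℕ), 0 ≤ α → 1 ≤ q → Int.gcd h q = 1 → |α - h / q| ≤ 1 / (q : ℝ) ^ 2 →
      (N : ℝ) ^ (1 / 4 : ℝ) ≤ q → (q : ℝ) ≤ (N : ℝ) ^ (3 / 4 : ℝ) →
      (((Ioc N (2 * N)).filter (fun y : ℕ => (Q y + ⌊α * y⌋₊).Prime)).card : ℝ) ≤ C * (N / Real.log N) := by
  classical
  obtain ⟨C₀, hC₀, hTH⟩ := Pool.Agent.Y257.HS.s_TH 1
  obtain ⟨C₁, hC₁, hm⟩ := Pool.Agent.Y840.PT.mert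
  have hC₀r : (1 : ℝ) ≤ C₀ := by exact_mod_cast hC₀
  obtain ⟨z, hz⟩ : ∃ z : ℕ, z = 2 ^ 2 ^ C₀ := ⟨_, rfl⟩
  obtain ⟨cz, hcz⟩ : ∃ cz : ℝ, cz = ∏ p ∈ Pool.Agent.Y840.PT.P0 z, (1 - 1 / (p : ℝ)) := ⟨_, rfl⟩
  have hfac : ∀ p : ℕ, p.Prime → 0 < 1 - 1 / (p : ℝ) := by
    intro p hp
    have h2 : (2 : ℝ) ≤ p := by exact_mod_cast hp.two_le
    rw [sub_pos, div_lt_one (by linarith)]
    linarith
  have hcz0 : 0 < cz := by
    rw [hcz]
    apply prod_pos
    intro p hp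
    unfold Pool.Agent.Y840.PT.P0 at hp
    exact hfac p (mem_filter.1 hp).2
  obtain ⟨K, hK⟩ : ∃ K : ℝ, K = 16 * C₀ ^ 2 * C₁ / cz + 1 := ⟨_, rfl⟩
  have hK0 : 0 < K := by rw [hK]; positivity
  -- largeness
  have hp16 : Tendsto (fun N : ℕ => (N : ℝ) ^ (1 / (16 * C₀ : ℝ))) atTop atTop :=
    (tendsto_rpow_atTop (by positivity)).comp tendsto_natCast_atTop_atTop
  have hlp : ∀ᶠ N : ℕ in atTop, 50 * Real.log N ≤ (N : ℝ) ^ (1 / 8 : ℝ) := by
    have h1 : (fun x : ℝ => Real.log x) =o[atTop] (fun x : ℝ => x ^ (1 / 8 : ℝ)) :=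
      isLittleO_log_rpow_atTop (by norm_num)
    have h2 := h1.bound (show (0 : ℝ) < 1 / 50 by norm_num)
    have h3 := tendsto_natCast_atTop_atTop.eventually h2
    filter_upwards [h3, eventually_ge_atTop 1] with N hN hN1
    have hN1' : (1 : ℝ) ≤ N := by exact_mod_cast hN1
    rw [Real.norm_of_nonneg (Real.log_nonneg hN1'),
      Real.norm_of_nonneg (Real.rpow_nonneg (by linarith) _)] at hN
    linarith
  obtain ⟨N₁, hN₁⟩ := eventually_atTop.1 ((hp16.eventually_ge_atTop ((z : ℝ) + 2)).and hlp)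
  refine ⟨K, hK0, N₁ + 3, fun N hN Q hQ hQN α h q hα0 hq hc hα hq1 hq2 => ?_⟩
  obtain ⟨b1, b2⟩ := hN₁ N (by omega)
  have hN0 : (0 : ℝ) < N := by exact_mod_cast (by omega : 0 < N)
  have hN1 : (1 : ℝ) ≤ N := by exact_mod_cast (by omega : 1 ≤ N)
  have hN2 : (2 : ℝ) ≤ N := by exact_mod_cast (by omega : 2 ≤ N)
  have hlogN : 0 < Real.log N := Real.log_pos (by linarith)
  have hq0 : (0 : ℝ) < q := by exact_mod_cast hq
  -- the level
  obtain ⟨w, hw⟩ : ∃ w : ℝ, w = (N : ℝ) ^ (1 / (8 * C₀ : ℝ)) := ⟨_, rfl⟩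
  have hw2 : w = (N : ℝ) ^ (1 / (16 * C₀ : ℝ)) * (N : ℝ) ^ (1 / (16 * C₀ : ℝ)) := by
    rw [hw, ← Real.rpow_add hN0]
    congr 1
    field_simp
    norm_num
  have hz0 : (0 : ℝ) ≤ z := Nat.cast_nonneg z
  have hwz : (z : ℝ) + 2 ≤ w := by
    rw [hw2]
    nlinarith
  -- the largest `J` with `2 ^ 2 ^ J ≤ w`
  have hexJ : ∃ J : ℕ, C₀ ≤ J ∧ ((2 ^ 2 ^ J : ℕ) : ℝ) ≤ w ∧ w < ((2 ^ 2 ^ (J + 1) : ℕ) : ℝ) := by
    have hub : ∃ J : ℕ, w < ((2 ^ 2 ^ J : ℕ) : ℝ) := by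
      obtain ⟨n, hn⟩ := exists_nat_gt w
      refine ⟨n, lt_of_lt_of_le hn ?_⟩
      have h1 : n ≤ 2 ^ 2 ^ n := (Nat.lt_pow_self (by norm_num : 1 < 2)).le.trans
        ((Nat.lt_pow_self (by norm_num : 1 < 2)).le)
      exact_mod_cast h1
    obtain ⟨J', hJ', hmin⟩ : ∃ J', (w < ((2 ^ 2 ^ J' : ℕ) : ℝ)) ∧ ∀ j < J', ¬ (w < ((2 ^ 2 ^ j : ℕ) : ℝ)) :=
      ⟨Nat.find hub, Nat.find_spec hub, fun j hj => Nat.find_min hub hj⟩
    have h1 : C₀ < J' := by
      by_contra h2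
      push Not at h2
      have h3 : (2 ^ 2 ^ J' : ℕ) ≤ 2 ^ 2 ^ C₀ :=
        Nat.pow_le_pow_right (by norm_num) (Nat.pow_le_pow_right (by norm_num) h2)
      have h4 : ((2 ^ 2 ^ J' : ℕ) : ℝ) ≤ z := by
        rw [hz]
        exact_mod_cast h3
      linarith
    refine ⟨J' - 1, by omega, ?_, ?_⟩
    · exact not_lt.1 (hmin (J' - 1) (by omega))
    · rw [Nat.sub_add_cancel (by omega)]
      exact hJ'
  obtain ⟨J, hJ1, hJ2, hJ3⟩ := hexJ
  obtain ⟨R, hR⟩ : ∃ R : ℕ, R = 2 ^ 2 ^ J := ⟨_, rfl⟩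
  rw [← hR] at hJ2
  have hR2 : 2 ≤ R := by
    rw [hR]
    calc 2 = 2 ^ 1 := by norm_num
      _ ≤ 2 ^ 2 ^ J := Nat.pow_le_pow_right (by norm_num) (Nat.one_le_pow _ _ (by norm_num))
  have hR0 : (0 : ℝ) < R := by exact_mod_cast (by omega : 0 < R)
  have hwR : w < (R : ℝ) ^ 2 := by
    have e : ((2 ^ 2 ^ (J + 1) : ℕ) : ℝ) = (R : ℝ) ^ 2 := by
      rw [hR]
      push_cast
      rw [← pow_mul, pow_succ]
    rw [← e]
    exact hJ3
  have hw0 : 0 < w := by linarith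
  have hlogR : Real.log N / (16 * C₀) ≤ Real.log R := by
    have h1 := Real.log_le_log hw0 hwR.le
    rw [Real.log_pow, hw, Real.log_rpow hN0] at h1
    push_cast at h1
    have e : Real.log N / (16 * C₀) = (1 / (8 * C₀ : ℝ) * Real.log N) / 2 := by
      field_simp
      norm_num
    rw [e]
    linarith
  have hRC : ((R ^ C₀ : ℕ) : ℝ) ≤ (N : ℝ) ^ (1 / 8 : ℝ) := by
    push_cast
    calc (R : ℝ) ^ C₀ ≤ w ^ C₀ := pow_le_pow_left₀ hR0.le hJ2 _
      _ = (N : ℝ) ^ (1 / 8 : ℝ) := by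
          rw [hw, ← Real.rpow_natCast, ← Real.rpow_mul hN0.le]
          congr 1
          field_simp
  have hzR : z ≤ R := by
    rw [hz, hR]
    exact Nat.pow_le_pow_right (by norm_num) (Nat.pow_le_pow_right (by norm_num) hJ1)
  have hRN : R < N := by
    have h1 : (R : ℝ) ≤ ((R ^ C₀ : ℕ) : ℝ) := by
      have : R ≤ R ^ C₀ := Nat.le_self_pow (by omega) R
      exact_mod_cast this
    have h2 : (N : ℝ) ^ (1 / 8 : ℝ) < (N : ℝ) ^ (1 : ℝ) :=
      Real.rpow_lt_rpow_of_exponent_lt (by linarith) (by norm_num)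
    rw [Real.rpow_one] at h2
    have h3 : (R : ℝ) < N := lt_of_le_of_lt (h1.trans hRC) h2
    exact_mod_cast h3
  obtain ⟨θ, hθ⟩ := hTH C₀ J le_rfl hJ1 Z0 (by
    intro p hp
    unfold Pr at hp
    have hp2 := (mem_filter.1 hp).2
    unfold Z0
    refine ⟨by simp, ?_⟩
    intro c hc
    rw [Finset.mem_singleton] at hc
    rw [hc]
    exact hp2.pos)
  rw [← hz, ← hR] at hθ
  -- the sieve product
  have hVV : VV Z0 z R ≤ C₁ / Real.log R / cz := by
    have h1 : Pool.Agent.Y840.PT.P0 R = Pool.Agent.Y840.PT.P0 z ∪ Pr z R := by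
      ext p
      unfold Pool.Agent.Y840.PT.P0 Pr
      rw [mem_union, mem_filter, mem_filter, mem_filter, mem_Ioc, mem_Ioc, mem_Ioc]
      constructor
      · rintro ⟨⟨h2, h3⟩, h4⟩
        by_cases h5 : p ≤ z
        · exact Or.inl ⟨⟨h2, h5⟩, h4⟩
        · exact Or.inr ⟨⟨by omega, h3⟩, h4⟩
      · rintro (⟨⟨h2, h3⟩, h4⟩ | ⟨⟨h2, h3⟩, h4⟩)
        · exact ⟨⟨h2, h3.trans hzR⟩, h4⟩
        · exact ⟨⟨by omega, h3⟩, h4⟩
    have h2 : Disjoint (Pool.Agent.Y840.PT.P0 z) (Pr z R) := by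
      rw [disjoint_left]
      intro p h3 h4
      unfold Pool.Agent.Y840.PT.P0 at h3
      unfold Pr at h4
      rw [mem_filter, mem_Ioc] at h3 h4
      omega
    have h3 := hm R hR2
    rw [h1, prod_union h2, ← hcz] at h3
    have h4 : VV Z0 z R = ∏ p ∈ Pr z R, (1 - 1 / (p : ℝ)) := by
      unfold VV
      apply prod_congr rfl
      intro p _
      unfold Z0
      simp
    rw [h4, le_div_iff₀ hcz0]
    linarith
  have hlogR0 : 0 < Real.log R := lt_of_lt_of_le (by positivity) hlogR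
  have hqq : (N : ℝ) * qq Z0 z R θ ≤ (16 * C₀ ^ 2 * C₁ / cz) * (N / Real.log N) := by
    have h1 : qq Z0 z R θ ≤ C₀ * (C₁ / Real.log R / cz) :=
      hθ.hi.trans (mul_le_mul_of_nonneg_left hVV (by positivity))
    have h2 : C₁ / Real.log R ≤ C₁ / (Real.log N / (16 * C₀)) :=
      div_le_div_of_nonneg_left hC₁.le (by positivity) hlogR
    calc (N : ℝ) * qq Z0 z R θ ≤ N * (C₀ * (C₁ / (Real.log N / (16 * C₀)) / cz)) := by
          apply mul_le_mul_of_nonneg_left _ hN0.le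
          refine h1.trans ?_
          apply mul_le_mul_of_nonneg_left _ (by positivity)
          exact div_le_div_of_nonneg_right h2 hcz0.le
      _ = _ := by
          field_simp
  -- the sum of the weights
  have hle : (((Ioc N (2 * N)).filter (fun y : ℕ => (Q y + ⌊α * y⌋₊).Prime)).card : ℝ) ≤
      ∑ y ∈ Ioc N (2 * N), Th Z0 z R θ (Q y + ⌊α * y⌋₊) := by
    rw [card_filter]
    push_cast
    apply sum_le_sum
    intro y hy
    split_ifs with hp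
    · have h1 : N ≤ Q y := hQN y (mem_Ioc.1 hy).1
      have h2 : (Pr z R).powerset.filter (fun U => ∀ p ∈ U, (Q y + ⌊α * y⌋₊) % p ∈ Z0 p) = {∅} := by
        ext U
        rw [mem_filter, mem_powerset, Finset.mem_singleton]
        constructor
        · rintro ⟨h3, h4⟩
          by_contra hne
          obtain ⟨p, hp1⟩ := Finset.nonempty_iff_ne_empty.2 hne
          have h5 := h3 hp1
          unfold Pr at h5
          rw [mem_filter, mem_Ioc] at h5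
          have h6 := h4 p hp1
          unfold Z0 at h6
          rw [Finset.mem_singleton] at h6
          have h7 := (Nat.prime_dvd_prime_iff_eq h5.2 hp).1 (Nat.dvd_of_mod_eq_zero h6)
          omega
        · rintro rfl
          exact ⟨empty_subset _, fun p hp => absurd hp (Finset.notMem_empty p)⟩
      unfold Th
      rw [h2, sum_singleton, hθ.one]
    · exact hθ.nonneg _
  refine hle.trans ?_
  -- exchange
  have hex : ∑ y ∈ Ioc N (2 * N), Th Z0 z R θ (Q y + ⌊α * y⌋₊) =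
      ∑ U ∈ (Pr z R).powerset, θ U *
        (((Ioc N (2 * N)).filter (fun y : ℕ => (∏ p ∈ U, p) ∣ Q y + ⌊α * y⌋₊)).card : ℝ) := by
    unfold Th
    simp only [sum_filter]
    rw [sum_comm]
    apply sum_congr rfl
    intro U hU
    rw [mem_powerset] at hU
    rw [card_filter]
    push_cast
    rw [mul_sum]
    apply sum_congr rfl
    intro y _
    have h1 := dvd_iff U (fun p hp => by
      have h2 := hU hp
      unfold Pr at h2
      exact (mem_filter.1 h2).2) (Q y + ⌊α * y⌋₊)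
    by_cases h3 : (∏ p ∈ U, p) ∣ Q y + ⌊α * y⌋₊
    · rw [if_pos h3, if_pos (h1.2 h3), mul_one]
    · rw [if_neg h3, if_neg (fun h4 => h3 (h1.1 h4)), mul_zero]
  rw [hex]
  -- the error terms
  obtain ⟨E, hE⟩ : ∃ E : ℝ, E = 50 * (N : ℝ) ^ (3 / 4 : ℝ) := ⟨_, rfl⟩
  have hE0 : 0 ≤ E := by rw [hE]; positivity
  have h18 : (N : ℝ) ^ (1 / 8 : ℝ) ≤ (N : ℝ) ^ (3 / 4 : ℝ) :=
    Real.rpow_le_rpow_of_exponent_le hN1 (by norm_num)
  have hNq : (N : ℝ) / q ≤ (N : ℝ) ^ (3 / 4 : ℝ) := by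
    rw [div_le_iff₀ hq0]
    calc (N : ℝ) = (N : ℝ) ^ (3 / 4 : ℝ) * (N : ℝ) ^ (1 / 4 : ℝ) := by
          rw [← Real.rpow_add hN0]
          norm_num
      _ ≤ (N : ℝ) ^ (3 / 4 : ℝ) * q := mul_le_mul_of_nonneg_left hq1 (by positivity)
  have herr : ∀ d : ℕ, 1 ≤ d → d ≤ R ^ C₀ →
      |(((Ioc N (2 * N)).filter (fun y : ℕ => d ∣ Q y + ⌊α * y⌋₊)).card : ℝ) - N / d| ≤ E := by
    intro d hd1 hd2
    have hd3 : (d : ℝ) ≤ (N : ℝ) ^ (1 / 8 : ℝ) := le_trans (by exact_mod_cast hd2) hRC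
    have h1 := level Q hQ α hα0 h q hq hc hα (2 * N + 1) d hd1
    have h2 := level Q hQ α hα0 h q hq hc hα (N + 1) d hd1
    have h3 : ((range (2 * N + 1)).filter (fun y : ℕ => d ∣ Q y + ⌊α * y⌋₊)).card =
        ((range (N + 1)).filter (fun y : ℕ => d ∣ Q y + ⌊α * y⌋₊)).card +
        ((Ioc N (2 * N)).filter (fun y : ℕ => d ∣ Q y + ⌊α * y⌋₊)).card := by
      rw [← card_union_of_disjoint]
      · congr 1
        ext y
        rw [mem_union, mem_filter, mem_filter, mem_filter, mem_range, mem_range, mem_Ioc]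
        constructor
        · rintro ⟨h4, h5⟩
          by_cases h6 : y < N + 1
          · exact Or.inl ⟨h6, h5⟩
          · exact Or.inr ⟨⟨by omega, by omega⟩, h5⟩
        · rintro (⟨h4, h5⟩ | ⟨⟨h4, h6⟩, h5⟩)
          · exact ⟨by omega, h5⟩
          · exact ⟨by omega, h5⟩
      · rw [disjoint_left]
        intro y h4 h5
        rw [mem_filter, mem_range] at h4
        rw [mem_filter, mem_Ioc] at h5
        omega
    have h4 : (((range (2 * N + 1)).filter (fun y : ℕ => d ∣ Q y + ⌊α * y⌋₊)).card : ℝ) =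
        (((range (N + 1)).filter (fun y : ℕ => d ∣ Q y + ⌊α * y⌋₊)).card : ℝ) +
        (((Ioc N (2 * N)).filter (fun y : ℕ => d ∣ Q y + ⌊α * y⌋₊)).card : ℝ) := by exact_mod_cast h3
    have e : (((Ioc N (2 * N)).filter (fun y : ℕ => d ∣ Q y + ⌊α * y⌋₊)).card : ℝ) - N / d =
        ((((range (2 * N + 1)).filter (fun y : ℕ => d ∣ Q y + ⌊α * y⌋₊)).card : ℝ) - ((2 * N + 1 : ℕ) : ℝ) / d) -
        ((((range (N + 1)).filter (fun y : ℕ => d ∣ Q y + ⌊α * y⌋₊)).card : ℝ) - ((N + 1 : ℕ) : ℝ) / d) := by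
      rw [h4]
      push_cast
      ring
    rw [e]
    refine (abs_sub _ _).trans ?_
    have h5 : ((2 * N + 1 : ℕ) : ℝ) / q ≤ 3 * (N / q) := by
      rw [← mul_div_assoc]
      apply div_le_div_of_nonneg_right _ hq0.le
      push_cast
      linarith
    have h6 : ((N + 1 : ℕ) : ℝ) / q ≤ 2 * (N / q) := by
      rw [← mul_div_assoc]
      apply div_le_div_of_nonneg_right _ hq0.le
      push_cast
      linarith
    have h7 : 12 * (N : ℝ) ^ (1 / 8 : ℝ) ≤ 18 * (N : ℝ) ^ (3 / 4 : ℝ) := by linarith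
    rw [hE]
    have h8 : 0 ≤ (N : ℝ) / q := by positivity
    linarith
  -- the sum
  have hprod : ∀ U ∈ (Pr z R).powerset, ∏ p ∈ U, (((Z0 p).card : ℝ) / p) = 1 / ((∏ p ∈ U, p : ℕ) : ℝ) := by
    intro U _
    unfold Z0
    simp
  have hsum : ∀ U ∈ (Pr z R).powerset, θ U *
      (((Ioc N (2 * N)).filter (fun y : ℕ => (∏ p ∈ U, p) ∣ Q y + ⌊α * y⌋₊)).card : ℝ) ≤
      N * (θ U * ∏ p ∈ U, (((Z0 p).card : ℝ) / p)) +
        (if ∏ p ∈ U, p ≤ R ^ C₀ then E else 0) := by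
    intro U hU
    rw [hprod U hU]
    rw [mem_powerset] at hU
    by_cases h1 : θ U = 0
    · rw [h1]
      split_ifs
      · simp only [zero_mul, mul_zero, zero_add]
        exact hE0
      · simp
    · have h2 := hθ.lev U hU h1
      rw [if_pos h2]
      have h3 : 1 ≤ ∏ p ∈ U, p := Nat.one_le_iff_ne_zero.2 (Finset.prod_ne_zero_iff.2 fun p hp => by
        have h4 := hU hp
        unfold Pr at h4
        exact (mem_filter.1 h4).2.ne_zero)
      have h4 := herr (∏ p ∈ U, p) h3 h2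
      have h5 : θ U * ((((Ioc N (2 * N)).filter (fun y : ℕ => (∏ p ∈ U, p) ∣ Q y + ⌊α * y⌋₊)).card : ℝ) -
          N / ((∏ p ∈ U, p : ℕ) : ℝ)) ≤ E := by
        refine (le_abs_self _).trans ?_
        rw [abs_mul]
        calc |θ U| * _ ≤ 1 * E := mul_le_mul (hθ.abs U) h4 (abs_nonneg _) zero_le_one
          _ = E := one_mul E
      have e : θ U * (((Ioc N (2 * N)).filter (fun y : ℕ => (∏ p ∈ U, p) ∣ Q y + ⌊α * y⌋₊)).card : ℝ) =
          N * (θ U * (1 / ((∏ p ∈ U, p : ℕ) : ℝ))) +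
          θ U * ((((Ioc N (2 * N)).filter (fun y : ℕ => (∏ p ∈ U, p) ∣ Q y + ⌊α * y⌋₊)).card : ℝ) -
          N / ((∏ p ∈ U, p : ℕ) : ℝ)) := by ring
      rw [e]
      linarith
  refine (sum_le_sum hsum).trans ?_
  rw [sum_add_distrib, ← mul_sum, ← sum_filter, sum_const, nsmul_eq_mul]
  have h1 : (N : ℝ) * ∑ U ∈ (Pr z R).powerset, θ U * ∏ p ∈ U, (((Z0 p).card : ℝ) / p) ≤
      (16 * C₀ ^ 2 * C₁ / cz) * (N / Real.log N) := hqq
  have h2 : ((((Pr z R).powerset).filter (fun U => ∏ p ∈ U, p ≤ R ^ C₀)).card : ℝ) ≤ (N : ℝ) ^ (1 / 8 : ℝ) :=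
    le_trans (by exact_mod_cast card_sets z R (R ^ C₀)) hRC
  have h3 : ((((Pr z R).powerset).filter (fun U => ∏ p ∈ U, p ≤ R ^ C₀)).card : ℝ) * E ≤ N / Real.log N := by
    calc _ ≤ (N : ℝ) ^ (1 / 8 : ℝ) * E := mul_le_mul_of_nonneg_right h2 hE0
      _ = 50 * (N : ℝ) ^ (7 / 8 : ℝ) := by
          rw [hE]
          have : (N : ℝ) ^ (7 / 8 : ℝ) = (N : ℝ) ^ (1 / 8 : ℝ) * (N : ℝ) ^ (3 / 4 : ℝ) := by
            rw [← Real.rpow_add hN0]
            norm_num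
          rw [this]
          ring
      _ ≤ N / Real.log N := by
          rw [le_div_iff₀ hlogN]
          have h4 : (N : ℝ) = (N : ℝ) ^ (7 / 8 : ℝ) * (N : ℝ) ^ (1 / 8 : ℝ) := by
            rw [← Real.rpow_add hN0]
            norm_num
          have h5 : 0 ≤ (N : ℝ) ^ (7 / 8 : ℝ) := by positivity
          calc 50 * (N : ℝ) ^ (7 / 8 : ℝ) * Real.log N = (N : ℝ) ^ (7 / 8 : ℝ) * (50 * Real.log N) := by ring
            _ ≤ (N : ℝ) ^ (7 / 8 : ℝ) * (N : ℝ) ^ (1 / 8 : ℝ) := mul_le_mul_of_nonneg_left b2 h5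
            _ = N := h4.symm
  calc _ ≤ (16 * C₀ ^ 2 * C₁ / cz) * (N / Real.log N) + N / Real.log N := add_le_add h1 h3
    _ = K * (N / Real.log N) := by
        rw [hK]
        ring

end Pool.Agent.P8H13.CL
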