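import Mathlib
import Pool.Agent.P8H13.CL.Low
import Pool.Agent.P8H13.CL.Sv
import Pool.Agent.P8H13.CL.Bad
import Pool.Agent.P8H13.OP.Meas
import Pool.Agent.P8H13.OP.Sets
import Pool.Agent.P8H13.OP.Top

/-!
# The right order of magnitude along almost all lines (helper13)
-/

set_option autoImplicit false

namespace Pool.Agent.P8H13.CL

open Finset Filter Topology MeasureTheory
open Pool.Agent.P8H13.OP (q q_cast Row F meas_F vol_F fin_F F_sub full rowsum2)

/-- the number of the `x ∈ (N, 2 N]` with `q b x + ⌊α x⌋` prime -/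
noncomputable def num (b : ℤ) (α : ℝ) (N : ℕ) : ℕ :=
  ((Ioc N (2 * N)).filter (fun x : ℕ => (q b x + ⌊α * x⌋₊).Prime)).card

theorem num_meas (b : ℤ) (N : ℕ) : Measurable (fun α : ℝ => (num b α N : ℝ)) := by
  unfold num
  simp only [card_filter]
  push_cast
  apply Finset.measurable_sum
  intro x _
  have h1 : Measurable (fun α : ℝ => ⌊α * (x : ℝ)⌋₊) :=
    Nat.measurable_floor.comp (measurable_id.mul_const _)
  have h2 : MeasurableSet {α : ℝ | (q b x + ⌊α * (x : ℝ)⌋₊).Prime} :=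
    h1 (MeasurableSet.of_discrete (s := {n : ℕ | (q b x + n).Prime}))
  exact Measurable.ite h2 measurable_const measurable_const

theorem q_mod (b : ℤ) (hb : b = 0 ∨ b = -1) (d r t : ℕ) : q b (r + d * t) ≡ q b r [MOD d] := by
  rw [Nat.modEq_iff_dvd, q_cast b hb, q_cast b hb]
  refine ⟨-(2 * r * t + d * t ^ 2 + b * t), ?_⟩
  push_cast
  ring

theorem q_ge (b : ℤ) (hb : b = 0 ∨ b = -1) (N y : ℕ) (hy : N < y) : N ≤ q b y := by
  have h3 := q_cast b hb y
  have h4 : (N : ℤ) < y := by exact_mod_cast hy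
  have h0 : (0 : ℤ) ≤ N := by positivity
  have h5 : (N : ℤ) ≤ ((q b y : ℕ) : ℤ) := by
    rw [h3]
    rcases hb with rfl | rfl
    · nlinarith
    · nlinarith
  exact_mod_cast h5

/-- the measure of the `α` with many primes -/
theorem lowP (b : ℤ) (hb : b = 0 ∨ b = -1) : ∃ κ c₃ : ℝ, 0 < κ ∧ 0 < c₃ ∧ ∀ β γ : ℝ, 0 ≤ β → β < γ → γ ≤ 1 →
    ∃ N₀ : ℕ, ∀ N : ℕ, N₀ ≤ N →
      c₃ * (γ - β) ≤ (volume ({α : ℝ | κ * (N / Real.log N) ≤ (num b α N : ℝ)} ∩ Set.Icc β γ)).toReal := by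
  classical
  obtain ⟨c, hc, hrow⟩ := rowsum2 b hb
  obtain ⟨C, hC, N₁, hpt⟩ := point
  refine ⟨c / 4, c / (8 * C), by positivity, by positivity, fun β γ hβ hβγ hγ => ?_⟩
  obtain ⟨Δ, hΔ⟩ : ∃ Δ : ℝ, Δ = γ - β := ⟨_, rfl⟩
  have hΔ0 : 0 < Δ := by rw [hΔ]; linarith
  obtain ⟨N₂, hN₂⟩ := hrow β γ hβ hβγ hγ
  have hlp : ∀ᶠ N : ℕ in atTop, 32 / (c * Δ) * Real.log N ≤ (N : ℝ) ^ (1 / 2 : ℝ) := by
    have h1 : (fun x : ℝ => Real.log x) =o[atTop] (fun x : ℝ => x ^ (1 / 2 : ℝ)) :=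
      isLittleO_log_rpow_atTop (by norm_num)
    have h2 := h1.bound (show (0 : ℝ) < c * Δ / 32 by positivity)
    have h3 := tendsto_natCast_atTop_atTop.eventually h2
    filter_upwards [h3, eventually_ge_atTop 1] with N hN hN1
    have hN1' : (1 : ℝ) ≤ N := by exact_mod_cast hN1
    rw [Real.norm_of_nonneg (Real.log_nonneg hN1'),
      Real.norm_of_nonneg (Real.rpow_nonneg (by linarith) _)] at hN
    calc 32 / (c * Δ) * Real.log N ≤ 32 / (c * Δ) * (c * Δ / 32 * (N : ℝ) ^ (1 / 2 : ℝ)) := by gcongr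
      _ = _ := by field_simp
  obtain ⟨N₃, hN₃⟩ := eventually_atTop.1 hlp
  refine ⟨N₁ + N₂ + N₃ + 3, fun N hN => ?_⟩
  have b3 := hN₃ N (by omega)
  have hNr3 : (3 : ℝ) ≤ N := by exact_mod_cast (by omega : 3 ≤ N)
  have hN0 : (0 : ℝ) < N := by linarith
  have hlN : 0 < Real.log N := Real.log_pos (by linarith)
  obtain ⟨Y, hY⟩ : ∃ Y : ℝ, Y = N / Real.log N := ⟨_, rfl⟩
  have hY0 : 0 < Y := by rw [hY]; positivity
  rw [← hY, ← hΔ]
  have hS := hN₂ N (by omega)
  rw [← hY, ← hΔ] at hS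
  obtain ⟨P, hP⟩ : ∃ P : Set ℝ, P = {α : ℝ | c / 4 * Y ≤ (num b α N : ℝ)} ∩ Set.Icc β γ := ⟨_, rfl⟩
  rw [← hP]
  have hPm : MeasurableSet P := by
    rw [hP]
    exact (measurableSet_le measurable_const (num_meas b N)).inter measurableSet_Icc
  have hPf : volume P ≠ ⊤ := by
    refine ne_top_of_le_ne_top ?_ (measure_mono (show P ⊆ Set.Icc β γ by
      rw [hP]
      exact Set.inter_subset_right))
    rw [Real.volume_Icc]
    exact ENNReal.ofReal_ne_top
  have hBv := vol_Bad N (by omega)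
  have hBf : volume (Bad N) ≠ ⊤ := ne_top_of_le_ne_top ENNReal.ofReal_ne_top hBv
  have hBr : (volume (Bad N)).toReal ≤ 4 * (N : ℝ) ^ (-(1 / 2) : ℝ) :=
    ENNReal.toReal_le_of_le_ofReal (by positivity) hBv
  have hIm : MeasurableSet (Set.Icc β γ) := measurableSet_Icc
  have hIf : volume (Set.Icc β γ) ≠ ⊤ := by
    rw [Real.volume_Icc]
    exact ENNReal.ofReal_ne_top
  have hIr : (volume (Set.Icc β γ)).toReal = Δ := by
    rw [Real.volume_Icc, ENNReal.toReal_ofReal (by linarith), hΔ]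
  obtain ⟨G, hG⟩ : ∃ G : ℕ → Set ℝ, G = fun x : ℕ => F ((x : ℝ) ^ (1 : ℝ)) (Row b 1 β γ x) := ⟨_, rfl⟩
  have hGm : ∀ x, MeasurableSet (G x) := by
    intro x
    rw [hG]
    exact meas_F _ _
  have hGf : ∀ x ∈ Ioc N (2 * N), volume (G x) ≠ ⊤ := by
    intro x hx
    rw [mem_Ioc] at hx
    rw [hG]
    apply fin_F
    apply Real.rpow_pos_of_pos
    exact_mod_cast (by omega : 0 < x)
  have hint : ∀ s : Set ℝ, MeasurableSet s → volume s ≠ ⊤ →
      Integrable (s.indicator (fun _ => (1 : ℝ))) volume ∧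
        ∫ x, s.indicator (fun _ => (1 : ℝ)) x = (volume s).toReal := by
    intro s hs hs2
    constructor
    · exact (integrable_indicator_iff hs).2 (integrableOn_const hs2)
    · rw [integral_indicator hs, setIntegral_const, smul_eq_mul, mul_one]
      rfl
  have hI1 : Integrable (fun α => ∑ x ∈ Ioc N (2 * N), (G x).indicator (fun _ => (1 : ℝ)) α) volume :=
    integrable_finsetSum _ fun x hx => (hint (G x) (hGm x) (hGf x hx)).1
  have hI2 : Integrable (fun α => c / 4 * Y * (Set.Icc β γ).indicator (fun _ => (1 : ℝ)) α) volume :=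
    (hint _ hIm hIf).1.const_mul _
  have hI3 : Integrable (fun α => C * Y * P.indicator (fun _ => (1 : ℝ)) α) volume :=
    (hint _ hPm hPf).1.const_mul _
  have hI4 : Integrable (fun α => (N : ℝ) * (Bad N).indicator (fun _ => (1 : ℝ)) α) volume :=
    (hint _ (meas_Bad N) hBf).1.const_mul _
  have hI23 : Integrable (fun α => c / 4 * Y * (Set.Icc β γ).indicator (fun _ => (1 : ℝ)) α +
      C * Y * P.indicator (fun _ => (1 : ℝ)) α) volume := hI2.add hI3
  have hind : ∀ (s : Set ℝ) (α : ℝ), 0 ≤ s.indicator (fun _ => (1 : ℝ)) α := fun s α =>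
    Set.indicator_nonneg (fun _ _ => zero_le_one) α
  have key : ∫ α, ∑ x ∈ Ioc N (2 * N), (G x).indicator (fun _ => (1 : ℝ)) α ≤
      ∫ α, (c / 4 * Y * (Set.Icc β γ).indicator (fun _ => (1 : ℝ)) α +
        C * Y * P.indicator (fun _ => (1 : ℝ)) α + (N : ℝ) * (Bad N).indicator (fun _ => (1 : ℝ)) α) := by
    refine integral_mono hI1 ((hI2.add hI3).add hI4) fun α => ?_
    have hp1 := mul_nonneg (by positivity : 0 ≤ c / 4 * Y) (hind (Set.Icc β γ) α)
    have hp2 := mul_nonneg (by positivity : 0 ≤ C * Y) (hind P α)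
    have hp3 := mul_nonneg hN0.le (hind (Bad N) α)
    simp only
    have hGsub : ∀ x ∈ Ioc N (2 * N), α ∈ G x → α ∈ Set.Icc β γ ∧ (q b x + ⌊α * (x : ℝ)⌋₊).Prime := by
      intro x hx hα
      rw [mem_Ioc] at hx
      rw [hG] at hα
      have h1 := F_sub b 1 β γ x (by omega) α hα
      rw [Real.rpow_one] at h1
      exact h1
    by_cases hα : α ∈ Set.Icc β γ
    · have hnum : ∑ x ∈ Ioc N (2 * N), (G x).indicator (fun _ => (1 : ℝ)) α ≤ (num b α N : ℝ) := by
        unfold num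
        rw [card_filter]
        push_cast
        apply sum_le_sum
        intro x hx
        by_cases h1 : α ∈ G x
        · rw [Set.indicator_of_mem h1, if_pos (hGsub x hx h1).2]
        · rw [Set.indicator_of_notMem h1]
          split_ifs <;> norm_num
      by_cases hB : α ∈ Bad N
      · rw [Set.indicator_of_mem hB]
        rw [Set.indicator_of_mem hB] at hp3
        have hN : (num b α N : ℝ) ≤ N := by
          have h2 : num b α N ≤ N := by
            unfold num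
            refine (card_filter_le _ _).trans ?_
            rw [Nat.card_Ioc]
            omega
          exact_mod_cast h2
        linarith
      · by_cases hPα : α ∈ P
        · rw [Set.indicator_of_mem hPα]
          obtain ⟨h, qq, hq1, hq2, hq3, hq4, hq5⟩ := good N (by omega) α (hβ.trans hα.1) (hα.2.trans hγ) hB
          have h1 := hpt N (by omega) (q b) (q_mod b hb) (q_ge b hb N) α h qq (hβ.trans hα.1) hq1 hq2 hq3 hq4 hq5
          rw [← hY] at h1
          have h2 : (num b α N : ℝ) ≤ C * Y := h1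
          linarith
        · have h1 : (num b α N : ℝ) < c / 4 * Y := by
            by_contra h2
            push Not at h2
            apply hPα
            rw [hP]
            exact ⟨h2, hα⟩
          rw [Set.indicator_of_mem hα]
          linarith
    · have h0 : ∑ x ∈ Ioc N (2 * N), (G x).indicator (fun _ => (1 : ℝ)) α = 0 := by
        apply sum_eq_zero
        intro x hx
        apply Set.indicator_of_notMem
        intro h1
        exact hα (hGsub x hx h1).1
      rw [h0]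
      linarith
  rw [integral_finsetSum _ fun x hx => (hint (G x) (hGm x) (hGf x hx)).1,
    integral_add hI23 hI4, integral_add hI2 hI3, integral_const_mul, integral_const_mul,
    integral_const_mul, (hint _ hIm hIf).2, (hint _ hPm hPf).2, (hint _ (meas_Bad N) hBf).2, hIr] at key
  have hlow : c / 2 * Δ * Y ≤ ∑ x ∈ Ioc N (2 * N), ∫ α, (G x).indicator (fun _ => (1 : ℝ)) α := by
    have h1 : ∀ x ∈ Ioc N (2 * N), ((Row b 1 β γ x).card : ℝ) / (2 * N) ≤
        ∫ α, (G x).indicator (fun _ => (1 : ℝ)) α := by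
      intro x hx
      rw [(hint (G x) (hGm x) (hGf x hx)).2]
      rw [mem_Ioc] at hx
      have hx0 : (0 : ℝ) < x := by exact_mod_cast (by omega : 0 < x)
      rw [hG]
      simp only
      rw [vol_F (Real.rpow_pos_of_pos hx0 _), Real.rpow_one]
      apply div_le_div_of_nonneg_left (Nat.cast_nonneg _) hx0
      exact_mod_cast hx.2
    refine le_trans ?_ (sum_le_sum h1)
    rw [← sum_div, le_div_iff₀ (by positivity)]
    refine le_trans (le_of_eq ?_) hS
    ring
  have hfin := hlow.trans key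
  have hNh : (N : ℝ) * (4 * (N : ℝ) ^ (-(1 / 2) : ℝ)) = 4 * (N : ℝ) ^ (1 / 2 : ℝ) := by
    have : (N : ℝ) ^ (1 / 2 : ℝ) = N * (N : ℝ) ^ (-(1 / 2) : ℝ) := by
      nth_rewrite 2 [← Real.rpow_one (N : ℝ)]
      rw [← Real.rpow_add hN0]
      norm_num
    rw [this]
    ring
  have hNB : (N : ℝ) * (volume (Bad N)).toReal ≤ c / 8 * Δ * Y := by
    have h1 : (N : ℝ) * (volume (Bad N)).toReal ≤ 4 * (N : ℝ) ^ (1 / 2 : ℝ) := by
      rw [← hNh]
      exact mul_le_mul_of_nonneg_left hBr hN0.le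
    refine h1.trans ?_
    have h2 : (N : ℝ) = (N : ℝ) ^ (1 / 2 : ℝ) * (N : ℝ) ^ (1 / 2 : ℝ) := by
      rw [← Real.rpow_add hN0]
      norm_num
    have h3 : 32 * Real.log N ≤ c * Δ * (N : ℝ) ^ (1 / 2 : ℝ) := by
      have h4 : 32 / (c * Δ) * Real.log N = 32 * Real.log N / (c * Δ) := by ring
      rw [h4, div_le_iff₀ (by positivity)] at b3
      linarith
    rw [hY, mul_div_assoc', le_div_iff₀ hlN]
    have h5 : 0 ≤ (N : ℝ) ^ (1 / 2 : ℝ) := by positivity
    calc 4 * (N : ℝ) ^ (1 / 2 : ℝ) * Real.log N = (N : ℝ) ^ (1 / 2 : ℝ) * (32 * Real.log N) / 8 := by ring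
      _ ≤ (N : ℝ) ^ (1 / 2 : ℝ) * (c * Δ * (N : ℝ) ^ (1 / 2 : ℝ)) / 8 := by
          apply div_le_div_of_nonneg_right _ (by norm_num)
          exact mul_le_mul_of_nonneg_left h3 h5
      _ = c / 8 * Δ * ((N : ℝ) ^ (1 / 2 : ℝ) * (N : ℝ) ^ (1 / 2 : ℝ)) := by ring
      _ = c / 8 * Δ * N := by rw [← h2]
  have h1 : c / 8 * Δ * Y ≤ C * Y * (volume P).toReal := by nlinarith
  have h2 : c / 8 * Δ ≤ C * (volume P).toReal := by
    have h3 : (c / 8 * Δ) * Y ≤ (C * (volume P).toReal) * Y := by linarith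
    exact le_of_mul_le_mul_right h3 hY0
  have e : c / (8 * C) * Δ = (c / 8 * Δ) / C := by
    field_simp
  rw [e, div_le_iff₀ hC]
  linarith

/-- **almost all lines** -/
theorem main (b : ℤ) (hb : b = 0 ∨ b = -1) : ∃ κ : ℝ, 0 < κ ∧
    ∀ᵐ α : ℝ, α ∈ Set.Ioo (0 : ℝ) 1 → ∃ᶠ N : ℕ in atTop, κ * (N / Real.log N) ≤ (num b α N : ℝ) := by
  obtain ⟨κ, c₃, hκ, hc₃, h⟩ := lowP b hb
  refine ⟨κ, hκ, ?_⟩
  obtain ⟨E, hE⟩ : ∃ E : ℕ → Set ℝ, E = fun N : ℕ => {α : ℝ | κ * (N / Real.log N) ≤ (num b α N : ℝ)} := ⟨_, rfl⟩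
  have hEm : ∀ x, MeasurableSet (E x) := by
    intro x
    rw [hE]
    exact measurableSet_le measurable_const (num_meas b x)
  obtain ⟨T, hT⟩ : ∃ T : ℕ → Set ℝ, T = fun m => ⋃ x ∈ Set.Ici m, E x := ⟨_, rfl⟩
  have hTm : ∀ m, MeasurableSet (T m) := by
    intro m
    rw [hT]
    exact MeasurableSet.biUnion (Set.to_countable _) fun x _ => hEm x
  have hTanti : Antitone T := by
    intro m m' hmm'
    rw [hT]
    exact Set.biUnion_subset_biUnion_left (Set.Ici_subset_Ici.2 hmm')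
  have hG : MeasurableSet (⋂ m, T m) := MeasurableSet.iInter hTm
  have hfull := full (⋂ m, T m) hG c₃ hc₃ (fun β γ hβ hβγ hγ => by
    have hanti : Antitone (fun m => T m ∩ Set.Icc β γ) := fun m m' hmm' =>
      Set.inter_subset_inter_left _ (hTanti hmm')
    have ht := tendsto_measure_iInter_atTop (μ := volume) (s := fun m => T m ∩ Set.Icc β γ)
      (fun m => ((hTm m).inter measurableSet_Icc).nullMeasurableSet) hanti
      ⟨0, ne_top_of_le_ne_top (by rw [Real.volume_Icc]; exact ENNReal.ofReal_ne_top)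
        (measure_mono (Set.inter_subset_right (s := T 0) (t := Set.Icc β γ)))⟩
    rw [← Set.iInter_inter] at ht
    refine ge_of_tendsto' ht fun m => ?_
    obtain ⟨N₀, hN₀⟩ := h β γ hβ hβγ hγ
    have h1 := hN₀ (max N₀ m) (le_max_left _ _)
    refine (ENNReal.ofReal_le_of_le_toReal h1).trans (measure_mono ?_)
    rintro α ⟨h2, h3⟩
    refine ⟨?_, h3⟩
    rw [hT]
    simp only [Set.mem_iUnion, exists_prop]
    refine ⟨max N₀ m, Set.mem_Ici.2 (le_max_right _ _), ?_⟩
    rw [hE]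
    exact h2)
  filter_upwards [hfull] with α hα h01
  rw [frequently_atTop]
  intro m
  have h1 := Set.mem_iInter.1 (hα h01) m
  rw [hT] at h1
  simp only [Set.mem_iUnion, exists_prop] at h1
  obtain ⟨x, h2, h3⟩ := h1
  rw [hE] at h3
  exact ⟨x, h2, h3⟩

end Pool.Agent.P8H13.CL
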