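import Mathlib
import Pool.Agent.P8H13.CL.TopC

/-!
# Many good scales along almost all lines (helper13)
-/

set_option autoImplicit false

namespace Pool.Agent.P8H13.CL

open Finset Filter Topology MeasureTheory
open Pool.Agent.P8H13.OP (q full)

/-- sets of `α` of measure bounded below in every interval: almost every `α` is in infinitely many -/
theorem io (E : ℕ → Set ℝ) (hEm : ∀ x, MeasurableSet (E x)) (c₃ : ℝ) (hc₃ : 0 < c₃)
    (h : ∀ β γ : ℝ, 0 ≤ β → β < γ → γ ≤ 1 → ∃ N₀ : ℕ, ∀ N : ℕ, N₀ ≤ N →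
      c₃ * (γ - β) ≤ (volume (E N ∩ Set.Icc β γ)).toReal) :
    ∀ᵐ α : ℝ, α ∈ Set.Ioo (0 : ℝ) 1 → ∃ᶠ N : ℕ in atTop, α ∈ E N := by
  obtain ⟨T, hT⟩ : ∃ T : ℕ → Set ℝ, T = fun m => ⋃ x ∈ Set.Ici m, E x := ⟨_, rfl⟩
  have hTm : ∀ m, MeasurableSet (T m) := by
    intro m
    rw [hT]
    exact MeasurableSet.biUnion (Set.to_countable _) fun x _ => hEm x
  have hTanti : Antitone T := by
    intro m m' hmm'
    rw [hT]
    exact Set.biUnion_subset_biUnion_left (Set.Ici_subset_Ici.2 hmm')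
  have hG : MeasurableSet (⋂ m, T m) := MeasurableSet.iInter hTm
  have hfull := full (⋂ m, T m) hG c₃ hc₃ (fun β γ hβ hβγ hγ => by
    have hanti : Antitone (fun m => T m ∩ Set.Icc β γ) := fun m m' hmm' =>
      Set.inter_subset_inter_left _ (hTanti hmm')
    have ht := tendsto_measure_iInter_atTop (μ := volume) (s := fun m => T m ∩ Set.Icc β γ)
      (fun m => ((hTm m).inter measurableSet_Icc).nullMeasurableSet) hanti
      ⟨0, ne_top_of_le_ne_top (by rw [Real.volume_Icc]; exact ENNReal.ofReal_ne_top)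
        (measure_mono (Set.inter_subset_right (s := T 0) (t := Set.Icc β γ)))⟩
    rw [← Set.iInter_inter] at ht
    refine ge_of_tendsto' ht fun m => ?_
    obtain ⟨N₀, hN₀⟩ := h β γ hβ hβγ hγ
    have h1 := hN₀ (max N₀ m) (le_max_left _ _)
    refine (ENNReal.ofReal_le_of_le_toReal h1).trans (measure_mono ?_)
    rintro α ⟨h2, h3⟩
    refine ⟨?_, h3⟩
    rw [hT]
    simp only [Set.mem_iUnion, exists_prop]
    exact ⟨max N₀ m, Set.mem_Ici.2 (le_max_right _ _), h2⟩)
  filter_upwards [hfull] with α hα h01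
  rw [frequently_atTop]
  intro m
  have h1 := Set.mem_iInter.1 (hα h01) m
  rw [hT] at h1
  simp only [Set.mem_iUnion, exists_prop] at h1
  obtain ⟨x, h2, h3⟩ := h1
  exact ⟨x, h2, h3⟩

/-- the number of the `k < K` with `α ∈ G k` -/
noncomputable def hits (G : ℕ → Set ℝ) (K : ℕ) (α : ℝ) : ℝ :=
  ∑ k ∈ range K, (G k).indicator (fun _ => (1 : ℝ)) α

theorem hits_meas (G : ℕ → Set ℝ) (hG : ∀ k, MeasurableSet (G k)) (K : ℕ) : Measurable (hits G K) := by
  unfold hits
  apply Finset.measurable_sum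
  intro k _
  exact measurable_const.indicator (hG k)

theorem hits_le (G : ℕ → Set ℝ) (K : ℕ) (α : ℝ) : hits G K α ≤ K := by
  unfold hits
  calc ∑ k ∈ range K, (G k).indicator (fun _ => (1 : ℝ)) α ≤ ∑ _k ∈ range K, (1 : ℝ) := by
        apply sum_le_sum
        intro k _
        apply Set.indicator_le_self' (s := G k) (f := fun _ => (1 : ℝ)) (fun _ _ => zero_le_one)
    _ = K := by simp

/-- many `k` -/
theorem many (G : ℕ → Set ℝ) (hG : ∀ k, MeasurableSet (G k)) (c₃ : ℝ) (hc₃ : 0 < c₃) (β γ : ℝ)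
    (hβγ : β < γ) (k₀ : ℕ) (h : ∀ k : ℕ, k₀ ≤ k → c₃ * (γ - β) ≤ (volume (G k ∩ Set.Icc β γ)).toReal)
    (K : ℕ) (hK : 4 * k₀ + 1 ≤ K) :
    c₃ / 4 * (γ - β) ≤ (volume ({α : ℝ | c₃ / 2 * K ≤ hits G K α} ∩ Set.Icc β γ)).toReal := by
  obtain ⟨Δ, hΔ⟩ : ∃ Δ : ℝ, Δ = γ - β := ⟨_, rfl⟩
  have hΔ0 : 0 < Δ := by rw [hΔ]; linarith
  rw [← hΔ]
  rw [← hΔ] at h
  obtain ⟨P, hP⟩ : ∃ P : Set ℝ, P = {α : ℝ | c₃ / 2 * K ≤ hits G K α} ∩ Set.Icc β γ := ⟨_, rfl⟩
  rw [← hP]
  have hPm : MeasurableSet P := by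
    rw [hP]
    exact (measurableSet_le measurable_const (hits_meas G hG K)).inter measurableSet_Icc
  have hIm : MeasurableSet (Set.Icc β γ) := measurableSet_Icc
  have hIf : volume (Set.Icc β γ) ≠ ⊤ := by
    rw [Real.volume_Icc]
    exact ENNReal.ofReal_ne_top
  have hPf : volume P ≠ ⊤ := by
    refine ne_top_of_le_ne_top hIf (measure_mono (show P ⊆ Set.Icc β γ by
      rw [hP]
      exact Set.inter_subset_right))
  have hIr : (volume (Set.Icc β γ)).toReal = Δ := by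
    rw [Real.volume_Icc, ENNReal.toReal_ofReal (by linarith), hΔ]
  have hGf : ∀ k, volume (G k ∩ Set.Icc β γ) ≠ ⊤ := fun k =>
    ne_top_of_le_ne_top hIf (measure_mono Set.inter_subset_right)
  have hint : ∀ s : Set ℝ, MeasurableSet s → volume s ≠ ⊤ →
      Integrable (s.indicator (fun _ => (1 : ℝ))) volume ∧
        ∫ x, s.indicator (fun _ => (1 : ℝ)) x = (volume s).toReal := by
    intro s hs hs2
    constructor
    · exact (integrable_indicator_iff hs).2 (integrableOn_const hs2)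
    · rw [integral_indicator hs, setIntegral_const, smul_eq_mul, mul_one]
      rfl
  have hI1 : Integrable (fun α => ∑ k ∈ range K, (G k ∩ Set.Icc β γ).indicator (fun _ => (1 : ℝ)) α) volume :=
    integrable_finsetSum _ fun k _ => (hint _ ((hG k).inter hIm) (hGf k)).1
  have hI2 : Integrable (fun α => c₃ / 2 * K * (Set.Icc β γ).indicator (fun _ => (1 : ℝ)) α) volume :=
    (hint _ hIm hIf).1.const_mul _
  have hI3 : Integrable (fun α => (K : ℝ) * P.indicator (fun _ => (1 : ℝ)) α) volume :=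
    (hint _ hPm hPf).1.const_mul _
  have hind : ∀ (s : Set ℝ) (α : ℝ), 0 ≤ s.indicator (fun _ => (1 : ℝ)) α := fun s α =>
    Set.indicator_nonneg (fun _ _ => zero_le_one) α
  have key : ∫ α, ∑ k ∈ range K, (G k ∩ Set.Icc β γ).indicator (fun _ => (1 : ℝ)) α ≤
      ∫ α, (c₃ / 2 * K * (Set.Icc β γ).indicator (fun _ => (1 : ℝ)) α +
        (K : ℝ) * P.indicator (fun _ => (1 : ℝ)) α) := by
    refine integral_mono hI1 (hI2.add hI3) fun α => ?_
    have hp1 := mul_nonneg (by positivity : 0 ≤ c₃ / 2 * (K : ℝ)) (hind (Set.Icc β γ) α)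
    have hp2 := mul_nonneg (Nat.cast_nonneg (α := ℝ) K) (hind P α)
    simp only
    by_cases hα : α ∈ Set.Icc β γ
    · have h0 : ∑ k ∈ range K, (G k ∩ Set.Icc β γ).indicator (fun _ => (1 : ℝ)) α = hits G K α := by
        unfold hits
        apply sum_congr rfl
        intro k _
        by_cases h1 : α ∈ G k
        · rw [Set.indicator_of_mem h1, Set.indicator_of_mem (show α ∈ G k ∩ Set.Icc β γ from ⟨h1, hα⟩)]
        · rw [Set.indicator_of_notMem h1, Set.indicator_of_notMem (fun h2 => h1 h2.1)]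
      rw [h0]
      by_cases hPα : α ∈ P
      · rw [Set.indicator_of_mem hPα]
        have := hits_le G K α
        linarith
      · have h1 : hits G K α < c₃ / 2 * K := by
          by_contra h2
          push Not at h2
          apply hPα
          rw [hP]
          exact ⟨h2, hα⟩
        rw [Set.indicator_of_mem hα]
        linarith
    · have h0 : ∑ k ∈ range K, (G k ∩ Set.Icc β γ).indicator (fun _ => (1 : ℝ)) α = 0 := by
        apply sum_eq_zero
        intro k _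
        apply Set.indicator_of_notMem
        intro h1
        exact hα h1.2
      rw [h0]
      linarith
  rw [integral_finsetSum _ fun k _ => (hint _ ((hG k).inter hIm) (hGf k)).1,
    integral_add hI2 hI3, integral_const_mul, integral_const_mul,
    (hint _ hIm hIf).2, (hint _ hPm hPf).2, hIr] at key
  have hlow : ((K : ℝ) - k₀) * (c₃ * Δ) ≤
      ∑ k ∈ range K, ∫ α, (G k ∩ Set.Icc β γ).indicator (fun _ => (1 : ℝ)) α := by
    have h1 : ∑ _k ∈ Ico k₀ K, c₃ * Δ ≤
        ∑ k ∈ Ico k₀ K, ∫ α, (G k ∩ Set.Icc β γ).indicator (fun _ => (1 : ℝ)) α := by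
      apply sum_le_sum
      intro k hk
      rw [mem_Ico] at hk
      rw [(hint _ ((hG k).inter hIm) (hGf k)).2]
      exact h k hk.1
    have h2 : ∑ k ∈ Ico k₀ K, ∫ α, (G k ∩ Set.Icc β γ).indicator (fun _ => (1 : ℝ)) α ≤
        ∑ k ∈ range K, ∫ α, (G k ∩ Set.Icc β γ).indicator (fun _ => (1 : ℝ)) α := by
      apply sum_le_sum_of_subset_of_nonneg
      · intro k hk
        rw [mem_Ico] at hk
        rw [mem_range]
        exact hk.2
      · intro k _ _
        exact integral_nonneg fun α => hind _ α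
    have h3 : ∑ _k ∈ Ico k₀ K, c₃ * Δ = ((K : ℝ) - k₀) * (c₃ * Δ) := by
      rw [sum_const, Nat.card_Ico, nsmul_eq_mul, Nat.cast_sub (by omega)]
    rw [← h3]
    exact h1.trans h2
  have hfin := hlow.trans key
  have hKr : 4 * (k₀ : ℝ) + 1 ≤ K := by exact_mod_cast hK
  have hK0 : (0 : ℝ) < K := by
    have : (0 : ℝ) ≤ k₀ := Nat.cast_nonneg _
    linarith
  have h1 : (K : ℝ) * (c₃ / 4 * Δ) ≤ K * (volume P).toReal := by
    have h2 : (k₀ : ℝ) * (c₃ * Δ) ≤ (K / 4) * (c₃ * Δ) :=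
      mul_le_mul_of_nonneg_right (by linarith) (by positivity)
    nlinarith
  exact le_of_mul_le_mul_left h1 hK0

/-- **many good scales, for almost all lines** -/
theorem dens (b : ℤ) (hb : b = 0 ∨ b = -1) : ∃ κ δ : ℝ, 0 < κ ∧ 0 < δ ∧ ∀ u : ℕ → ℕ, StrictMono u →
    ∀ᵐ α : ℝ, α ∈ Set.Ioo (0 : ℝ) 1 → ∃ᶠ K : ℕ in atTop,
      δ * K ≤ (((range K).filter (fun k : ℕ =>
        κ * ((u k : ℝ) / Real.log (u k)) ≤ (num b α (u k) : ℝ))).card : ℝ) := by
  classical
  obtain ⟨κ, c₃, hκ, hc₃, h⟩ := lowP b hb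
  refine ⟨κ, c₃ / 2, hκ, by positivity, fun u hu => ?_⟩
  obtain ⟨G, hG⟩ : ∃ G : ℕ → Set ℝ, G = fun k : ℕ =>
      {α : ℝ | κ * ((u k : ℝ) / Real.log (u k)) ≤ (num b α (u k) : ℝ)} := ⟨_, rfl⟩
  have hGm : ∀ k, MeasurableSet (G k) := by
    intro k
    rw [hG]
    exact measurableSet_le measurable_const (num_meas b (u k))
  have h1 := io (fun K : ℕ => {α : ℝ | c₃ / 2 * K ≤ hits G K α})
    (fun K => measurableSet_le measurable_const (hits_meas G hGm K)) (c₃ / 4) (by positivity)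
    (fun β γ hβ hβγ hγ => by
      obtain ⟨N₀, hN₀⟩ := h β γ hβ hβγ hγ
      refine ⟨4 * N₀ + 1, fun K hK => ?_⟩
      refine many G hGm c₃ hc₃ β γ hβγ N₀ (fun k hk => ?_) K hK
      have h2 := hN₀ (u k) (hk.trans hu.le_apply)
      rw [hG]
      exact h2)
  filter_upwards [h1] with α hα h01
  refine (hα h01).mono fun K hK => ?_
  have h2 : c₃ / 2 * K ≤ hits G K α := hK
  refine h2.trans (le_of_eq ?_)
  unfold hits
  rw [card_filter]
  push_cast
  apply sum_congr rfl
  intro k _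
  have h4 : α ∈ G k ↔ κ * ((u k : ℝ) / Real.log (u k)) ≤ (num b α (u k) : ℝ) := by
    rw [hG]
    exact Iff.rfl
  by_cases h3 : α ∈ G k
  · rw [Set.indicator_of_mem h3, if_pos (h4.1 h3)]
  · rw [Set.indicator_of_notMem h3, if_neg (fun h5 => h3 (h4.2 h5))]

end Pool.Agent.P8H13.CL
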