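import Mathlib
import Pool.Agent.P8H13.CL.TopC

/-!
# The upper bound for almost all lines and all scales (helper13)
-/

set_option autoImplicit false

namespace Pool.Agent.P8H13.CL

open Finset Filter Topology MeasureTheory
open Pool.Agent.P8H13.OP (q q_cast)

theorem num_split (b : ℤ) (α : ℝ) (m N : ℕ) (h1 : m ≤ N) (h2 : N ≤ 2 * m) :
    num b α N ≤ num b α m + num b α (2 * m) := by
  classical
  unfold num
  refine (card_le_card ?_).trans (card_union_le _ _)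
  intro x hx
  rw [mem_filter, mem_Ioc] at hx
  rw [mem_union, mem_filter, mem_filter, mem_Ioc, mem_Ioc]
  by_cases h3 : x ≤ 2 * m
  · exact Or.inl ⟨⟨by omega, h3⟩, hx.2⟩
  · exact Or.inr ⟨⟨by omega, by omega⟩, hx.2⟩

theorem summable_Bad : ∑' j : ℕ, volume (Bad (2 ^ j)) ≠ ⊤ := by
  obtain ⟨r, hr⟩ : ∃ r : ℝ, r = (2 : ℝ) ^ (-(1 / 2) : ℝ) := ⟨_, rfl⟩
  have hr0 : 0 ≤ r := by rw [hr]; positivity
  have hr1 : r < 1 := by
    rw [hr]
    exact Real.rpow_lt_one_of_one_lt_of_neg (by norm_num) (by norm_num)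
  have h1 : ∀ j : ℕ, volume (Bad (2 ^ j)) ≤ ENNReal.ofReal (4 * r ^ j) := by
    intro j
    refine (vol_Bad (2 ^ j) Nat.one_le_two_pow).trans (le_of_eq ?_)
    congr 2
    rw [hr]
    push_cast
    rw [← Real.rpow_natCast, ← Real.rpow_natCast, ← Real.rpow_mul (by norm_num),
      ← Real.rpow_mul (by norm_num)]
    congr 1
    ring
  have hs : Summable (fun j : ℕ => 4 * r ^ j) := (summable_geometric_of_lt_one hr0 hr1).mul_left 4
  refine ne_top_of_le_ne_top ?_ (ENNReal.tsum_le_tsum h1)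
  rw [← ENNReal.ofReal_tsum_of_nonneg (fun j => by positivity) hs]
  exact ENNReal.ofReal_ne_top

/-- **upper bound** -/
theorem upper (b : ℤ) (hb : b = 0 ∨ b = -1) : ∃ K : ℝ, 0 < K ∧
    ∀ᵐ α : ℝ, α ∈ Set.Ioo (0 : ℝ) 1 → ∀ᶠ N : ℕ in atTop, (num b α N : ℝ) ≤ K * (N / Real.log N) := by
  obtain ⟨C, hC, N₁, hpt⟩ := point
  refine ⟨6 * C, by positivity, ?_⟩
  have hbc := ae_eventually_notMem summable_Bad
  filter_upwards [hbc] with α hα h01
  obtain ⟨j₀, hj₀⟩ := eventually_atTop.1 hα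
  have hdy : ∀ j : ℕ, j₀ ≤ j → N₁ ≤ 2 ^ j → (num b α (2 ^ j) : ℝ) ≤ C * ((2 : ℝ) ^ j / Real.log ((2 : ℝ) ^ j)) := by
    intro j hj hN
    obtain ⟨h, qq, hq1, hq2, hq3, hq4, hq5⟩ := good (2 ^ j) Nat.one_le_two_pow α h01.1.le h01.2.le (hj₀ j hj)
    have h1 := hpt (2 ^ j) hN (q b) (q_mod b hb) (q_ge b hb (2 ^ j)) α h qq h01.1.le hq1 hq2 hq3 hq4 hq5
    have h2 : (((2 ^ j : ℕ) : ℝ)) = (2 : ℝ) ^ j := by push_cast; rfl
    rw [h2] at h1
    exact h1
  obtain ⟨j₁, hj₁⟩ : ∃ j₁ : ℕ, j₁ = j₀ + N₁ + 2 := ⟨_, rfl⟩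
  filter_upwards [eventually_ge_atTop (2 ^ j₁)] with N hN
  obtain ⟨j, hj⟩ : ∃ j : ℕ, j = Nat.log 2 N := ⟨_, rfl⟩
  have hN0 : N ≠ 0 := by
    have : 1 ≤ 2 ^ j₁ := Nat.one_le_two_pow
    omega
  have h1 : 2 ^ j ≤ N := by
    rw [hj]
    exact Nat.pow_log_le_self 2 hN0
  have h2 : N < 2 ^ (j + 1) := by
    rw [hj]
    exact Nat.lt_pow_succ_log_self (by norm_num) N
  have hjj : j₁ ≤ j := by
    rw [hj]
    exact Nat.le_log_of_pow_le (by norm_num) hN
  have hNj : N₁ ≤ 2 ^ j := by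
    have h3 : j < 2 ^ j := Nat.lt_pow_self (by norm_num)
    omega
  have hNj' : N₁ ≤ 2 ^ (j + 1) := hNj.trans (Nat.pow_le_pow_right (by norm_num) (by omega))
  have h3 := num_split b α (2 ^ j) N h1 (by rw [pow_succ] at h2; omega)
  have e : 2 * 2 ^ j = 2 ^ (j + 1) := by ring
  rw [e] at h3
  have h4 := hdy j (by omega) hNj
  have h5 := hdy (j + 1) (by omega) hNj'
  have h6 : (num b α N : ℝ) ≤ num b α (2 ^ j) + num b α (2 ^ (j + 1)) := by exact_mod_cast h3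
  obtain ⟨m, hm⟩ : ∃ m : ℝ, m = (2 : ℝ) ^ j := ⟨_, rfl⟩
  have hm4 : 4 ≤ m := by
    rw [hm]
    calc (4 : ℝ) = 2 ^ 2 := by norm_num
      _ ≤ 2 ^ j := pow_le_pow_right₀ (by norm_num) (by omega)
  have hlm : 0 < Real.log m := Real.log_pos (by linarith)
  have hmN : m ≤ N := by rw [hm]; exact_mod_cast h1
  have hNm : (N : ℝ) ≤ 2 * m := by
    have h7 : (N : ℝ) ≤ (2 : ℝ) ^ (j + 1) := by exact_mod_cast h2.le
    rw [pow_succ] at h7
    rw [hm]
    linarith
  have e2 : (2 : ℝ) ^ (j + 1) = 2 * m := by rw [hm, pow_succ]; ring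
  rw [← hm] at h4
  rw [e2] at h5
  have h7 : 2 * m / Real.log (2 * m) ≤ 2 * m / Real.log m :=
    div_le_div_of_nonneg_left (by linarith) hlm (Real.log_le_log (by linarith) (by linarith))
  have h8 : Real.log N ≤ 2 * Real.log m := by
    have h9 : (N : ℝ) ≤ m ^ 2 := by nlinarith
    have h10 := Real.log_le_log (by linarith) h9
    rw [Real.log_pow] at h10
    exact_mod_cast h10
  have hlN : 0 < Real.log N := Real.log_pos (by linarith)
  have h9 : m / Real.log m ≤ 2 * (N / Real.log N) := by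
    have h10 : m / Real.log m ≤ N / (Real.log N / 2) :=
      div_le_div₀ (by linarith) hmN (by positivity) (by linarith)
    refine h10.trans (le_of_eq ?_)
    field_simp
  calc (num b α N : ℝ) ≤ C * (m / Real.log m) + C * (2 * m / Real.log (2 * m)) := by linarith
    _ ≤ C * (m / Real.log m) + C * (2 * m / Real.log m) := by
        have := mul_le_mul_of_nonneg_left h7 hC.le
        linarith
    _ = 3 * C * (m / Real.log m) := by ring
    _ ≤ 3 * C * (2 * (N / Real.log N)) := mul_le_mul_of_nonneg_left h9 (by positivity)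
    _ = 6 * C * (N / Real.log N) := by ring

end Pool.Agent.P8H13.CL
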